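import Mathlib

/-!
Numerical bound for the Gamma function at 4/3 and 5/3 (module GAM3 of the
three halves chain).
-/

namespace Pool.Agent.Helper52.GR

open Real

/-- Shift of the Gamma function by a natural number. -/
theorem gamma_shift (x : ℝ) (hx : 0 < x) (k : ℕ) :
    Gamma (x + k) = (∏ j ∈ Finset.range k, (x + j)) * Gamma x := by
  induction k with
  | zero => simp
  | succ k ih =>
    have h1 : x + ((k + 1 : ℕ) : ℝ) = (x + k) + 1 := by push_cast; ring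
    have h2 : (x + k : ℝ) ≠ 0 := by positivity
    rw [h1, Real.Gamma_add_one h2, ih, Finset.prod_range_succ]
    ring

/-- Cubed upper bound from log convexity. -/
theorem gamma_up (x : ℝ) (hx : 0 < x) :
    Gamma (x + 2 / 3) ^ 3 ≤ x ^ 2 * Gamma x ^ 3 := by
  have h := Real.Gamma_mul_add_mul_le_rpow_Gamma_mul_rpow_Gamma (s := x) (t := x + 1)
    (a := 1 / 3) (b := 2 / 3) hx (by linarith) (by norm_num) (by norm_num) (by norm_num)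
  have e : (1 / 3 * x + 2 / 3 * (x + 1) : ℝ) = x + 2 / 3 := by ring
  rw [e] at h
  have h0 : 0 < Gamma x := Real.Gamma_pos_of_pos hx
  have h1 : 0 < Gamma (x + 1) := Real.Gamma_pos_of_pos (by linarith)
  have h2 : 0 < Gamma (x + 2 / 3) := Real.Gamma_pos_of_pos (by linarith)
  have h3 := pow_le_pow_left₀ h2.le h 3
  have e1 : (Gamma x ^ (1 / 3 : ℝ)) ^ 3 = Gamma x := by
    rw [← Real.rpow_natCast, ← Real.rpow_mul h0.le]
    norm_num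
  have e2 : (Gamma (x + 1) ^ (2 / 3 : ℝ)) ^ 3 = Gamma (x + 1) ^ 2 := by
    rw [← Real.rpow_natCast, ← Real.rpow_mul h1.le]
    norm_num
  rw [mul_pow, e1, e2, Real.Gamma_add_one hx.ne'] at h3
  calc Gamma (x + 2 / 3) ^ 3 ≤ Gamma x * (x * Gamma x) ^ 2 := h3
    _ = x ^ 2 * Gamma x ^ 3 := by ring

/-- The numerical inequality needed. -/
theorem gam3 : 108 / 100 * Gamma (5 / 3) ^ 2 ≤ Gamma (4 / 3) := by
  have p4 : 0 < Gamma (4 / 3) := Real.Gamma_pos_of_pos (by norm_num)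
  have p5 : 0 < Gamma (5 / 3) := Real.Gamma_pos_of_pos (by norm_num)
  have s4 := gamma_shift (4 / 3) (by norm_num) 29
  have s5 := gamma_shift (5 / 3) (by norm_num) 29
  have g30 : Gamma (30 : ℝ) = (Nat.factorial 29 : ℝ) := by
    rw [← Real.Gamma_nat_eq_factorial 29]
    congr 1
    norm_num
  have g31 : Gamma (31 : ℝ) = (Nat.factorial 30 : ℝ) := by
    rw [← Real.Gamma_nat_eq_factorial 30]
    congr 1
    norm_num
  have u := gamma_up 30 (by norm_num)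
  have l := gamma_up (30 + 1 / 3) (by norm_num)
  have e1 : (30 + 1 / 3 + 2 / 3 : ℝ) = 31 := by norm_num
  have e2 : (4 / 3 + ((29 : ℕ) : ℝ)) = 30 + 1 / 3 := by norm_num
  have e3 : (5 / 3 + ((29 : ℕ) : ℝ)) = 30 + 2 / 3 := by norm_num
  rw [e1, g31, ← e2, s4] at l
  rw [g30, ← e3, s5] at u
  set P4 : ℝ := ∏ j ∈ Finset.range 29, (4 / 3 + (j : ℝ)) with hP4
  set P5 : ℝ := ∏ j ∈ Finset.range 29, (5 / 3 + (j : ℝ)) with hP5
  have q4 : 0 < P4 := by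
    rw [hP4]; exact Finset.prod_pos fun j _ => by positivity
  have q5 : 0 < P5 := by
    rw [hP5]; exact Finset.prod_pos fun j _ => by positivity
  have key : (108 / 100 : ℝ) ^ 3 * (30 ^ 2 * ((Nat.factorial 29 : ℕ) : ℝ) ^ 3) ^ 2 *
      ((4 / 3 + ((29 : ℕ) : ℝ)) ^ 2 * P4 ^ 3) ≤
      ((Nat.factorial 30 : ℕ) : ℝ) ^ 3 * (P5 ^ 3) ^ 2 := by
    rw [hP4, hP5]
    simp only [Finset.prod_range_succ, Finset.prod_range_zero, Nat.factorial]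
    norm_num
  have hB : (Gamma (5 / 3)) ^ 3 * P5 ^ 3 ≤ 30 ^ 2 * ((Nat.factorial 29 : ℕ) : ℝ) ^ 3 := by
    calc (Gamma (5 / 3)) ^ 3 * P5 ^ 3 = (P5 * Gamma (5 / 3)) ^ 3 := by ring
      _ ≤ _ := u
  have hA : ((Nat.factorial 30 : ℕ) : ℝ) ^ 3 ≤
      ((4 / 3 + ((29 : ℕ) : ℝ)) ^ 2 * P4 ^ 3) * Gamma (4 / 3) ^ 3 := by
    calc ((Nat.factorial 30 : ℕ) : ℝ) ^ 3 ≤ _ := l
      _ = _ := by ring
  have hB2 : ((Gamma (5 / 3)) ^ 3 * P5 ^ 3) ^ 2 ≤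
      (30 ^ 2 * ((Nat.factorial 29 : ℕ) : ℝ) ^ 3) ^ 2 :=
    pow_le_pow_left₀ (by positivity) hB 2
  have hC : (108 / 100 * Gamma (5 / 3) ^ 2) ^ 3 ≤ Gamma (4 / 3) ^ 3 := by
    have hK : 0 < ((4 / 3 + ((29 : ℕ) : ℝ)) ^ 2 * P4 ^ 3) * (P5 ^ 3) ^ 2 := by positivity
    refine le_of_mul_le_mul_left ?_ hK
    calc ((4 / 3 + ((29 : ℕ) : ℝ)) ^ 2 * P4 ^ 3) * (P5 ^ 3) ^ 2 *
          (108 / 100 * Gamma (5 / 3) ^ 2) ^ 3
        = (108 / 100) ^ 3 * ((4 / 3 + ((29 : ℕ) : ℝ)) ^ 2 * P4 ^ 3) *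
          ((Gamma (5 / 3)) ^ 3 * P5 ^ 3) ^ 2 := by ring
      _ ≤ (108 / 100) ^ 3 * ((4 / 3 + ((29 : ℕ) : ℝ)) ^ 2 * P4 ^ 3) *
          (30 ^ 2 * ((Nat.factorial 29 : ℕ) : ℝ) ^ 3) ^ 2 := by
          exact mul_le_mul_of_nonneg_left hB2 (by positivity)
      _ = (108 / 100 : ℝ) ^ 3 * (30 ^ 2 * ((Nat.factorial 29 : ℕ) : ℝ) ^ 3) ^ 2 *
          ((4 / 3 + ((29 : ℕ) : ℝ)) ^ 2 * P4 ^ 3) := by ring
      _ ≤ ((Nat.factorial 30 : ℕ) : ℝ) ^ 3 * (P5 ^ 3) ^ 2 := key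
      _ ≤ (((4 / 3 + ((29 : ℕ) : ℝ)) ^ 2 * P4 ^ 3) * Gamma (4 / 3) ^ 3) * (P5 ^ 3) ^ 2 := by
          exact mul_le_mul_of_nonneg_right hA (by positivity)
      _ = ((4 / 3 + ((29 : ℕ) : ℝ)) ^ 2 * P4 ^ 3) * (P5 ^ 3) ^ 2 * Gamma (4 / 3) ^ 3 := by ring
  exact le_of_pow_le_pow_left₀ (by norm_num) p4.le hC

end Pool.Agent.Helper52.GR
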