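import Pool.Agent.Helper75.GR.Stmts
import Pool.Agent.Helper52.GR.Gam3

/-!
The numerical bound in the form of the sheet.
-/

namespace Pool.Agent.Helper75.GR

theorem st_GAM3 : ST_GAM3 := by
  have h5 : 0 < Real.Gamma (5 / 3) := Real.Gamma_pos_of_pos (by norm_num)
  unfold ST_GAM3
  rw [le_div_iff₀ (by positivity)]
  exact Pool.Agent.Helper52.GR.gam3

end Pool.Agent.Helper75.GR
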