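import Mathlib

/-!
One crossing lemma for two densities on the half line (module LAW of the
three halves chain, part 1).
-/

namespace Pool.Agent.Helper52.GR

open MeasureTheory Set

/-- Single crossing: if `f` and `g` have the same integral, and `f` falls below `g` once and
for all, then monotone functions have larger integral against `g`. -/
theorem cross {f g h : ℝ → ℝ} (hf : IntegrableOn f (Ioi 0)) (hg : IntegrableOn g (Ioi 0))
    (heq : ∫ t in Ioi (0 : ℝ), f t = ∫ t in Ioi (0 : ℝ), g t)
    (hS : ∀ s t, 0 < s → s ≤ t → f s < g s → f t < g t)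
    (hh : MonotoneOn h (Ioi 0))
    (hhf : IntegrableOn (fun t => h t * f t) (Ioi 0))
    (hhg : IntegrableOn (fun t => h t * g t) (Ioi 0)) :
    ∫ t in Ioi (0 : ℝ), h t * f t ≤ ∫ t in Ioi (0 : ℝ), h t * g t := by
  have hgf : IntegrableOn (fun t => g t - f t) (Ioi 0) := hg.sub hf
  have hz : ∫ t in Ioi (0 : ℝ), (g t - f t) = 0 := by
    rw [integral_sub hg hf, heq, sub_self]
  have hd : IntegrableOn (fun t => h t * (g t - f t)) (Ioi 0) := by
    have := hhg.sub hhf
    refine this.congr ?_
    filter_upwards with t
    simp only [Pi.sub_apply]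
    ring
  suffices hmain : 0 ≤ ∫ t in Ioi (0 : ℝ), h t * (g t - f t) by
    have e : ∫ t in Ioi (0 : ℝ), h t * (g t - f t) =
        (∫ t in Ioi (0 : ℝ), h t * g t) - ∫ t in Ioi (0 : ℝ), h t * f t := by
      rw [← integral_sub hhg hhf]
      refine integral_congr_ae ?_
      filter_upwards with t
      ring
    linarith
  by_cases hA : ∀ t, 0 < t → f t < g t
  · -- then g - f > 0 with zero integral
    have h0 : ∀ᵐ t ∂(volume.restrict (Ioi (0 : ℝ))), 0 ≤ g t - f t := by
      filter_upwards [ae_restrict_mem measurableSet_Ioi] with t ht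
      exact sub_nonneg.2 (hA t ht).le
    have h1 := (integral_eq_zero_iff_of_nonneg_ae h0 hgf).1 hz
    have h2 : ∫ t in Ioi (0 : ℝ), h t * (g t - f t) = 0 := by
      refine integral_eq_zero_of_ae ?_
      filter_upwards [h1] with t ht
      simp only [Pi.zero_apply] at ht ⊢
      rw [ht, mul_zero]
    rw [h2]
  · push Not at hA
    obtain ⟨a, ha, hga⟩ := hA
    by_cases hB : ∀ t, 0 < t → g t ≤ f t
    · have h0 : ∀ᵐ t ∂(volume.restrict (Ioi (0 : ℝ))), 0 ≤ f t - g t := by
        filter_upwards [ae_restrict_mem measurableSet_Ioi] with t ht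
        exact sub_nonneg.2 (hB t ht)
      have hz' : ∫ t in Ioi (0 : ℝ), (f t - g t) = 0 := by
        rw [integral_sub hf hg, heq, sub_self]
      have h1 := (integral_eq_zero_iff_of_nonneg_ae h0 (hf.sub hg)).1 hz'
      have h2 : ∫ t in Ioi (0 : ℝ), h t * (g t - f t) = 0 := by
        refine integral_eq_zero_of_ae ?_
        filter_upwards [h1] with t ht
        simp only [Pi.zero_apply] at ht ⊢
        have : g t - f t = 0 := by linarith
        rw [this, mul_zero]
      rw [h2]
    · push Not at hB
      obtain ⟨b, hb, hfb⟩ := hB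
      -- the crossing point
      set S : Set ℝ := {t | 0 < t ∧ f t < g t} with hSdef
      have hbS : b ∈ S := ⟨hb, hfb⟩
      have hlow : ∀ s ∈ S, a ≤ s := by
        intro s hs
        by_contra hcon
        push Not at hcon
        exact absurd (hS s a hs.1 hcon.le hs.2) (not_lt.2 hga)
      have hbdd : BddBelow S := ⟨a, hlow⟩
      set t0 := sInf S with ht0
      have ht0a : a ≤ t0 := le_csInf ⟨b, hbS⟩ hlow
      have ht0p : 0 < t0 := lt_of_lt_of_le ha ht0a
      have hbelow : ∀ t, 0 < t → t < t0 → g t ≤ f t := by
        intro t ht htt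
        by_contra hcon
        push Not at hcon
        have : t0 ≤ t := csInf_le hbdd ⟨ht, hcon⟩
        linarith
      have habove : ∀ t, t0 < t → f t < g t := by
        intro t htt
        obtain ⟨s, hs, hst⟩ := exists_lt_of_csInf_lt ⟨b, hbS⟩ htt
        exact hS s t hs.1 hst.le hs.2
      have hpos : ∀ᵐ t ∂(volume.restrict (Ioi (0 : ℝ))), 0 ≤ (h t - h t0) * (g t - f t) := by
        filter_upwards [ae_restrict_mem measurableSet_Ioi] with t ht
        rcases lt_trichotomy t t0 with hlt | heq' | hgt
        · have h1 : h t ≤ h t0 := hh ht (mem_Ioi.2 ht0p) hlt.le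
          have h2 := hbelow t ht hlt
          exact mul_nonneg_of_nonpos_of_nonpos (by linarith) (by linarith)
        · rw [heq', sub_self, zero_mul]
        · have h1 : h t0 ≤ h t := hh (mem_Ioi.2 ht0p) ht hgt.le
          have h2 := (habove t hgt).le
          exact mul_nonneg (by linarith) (by linarith)
      have hI := integral_nonneg_of_ae hpos
      have e : ∫ t in Ioi (0 : ℝ), (h t - h t0) * (g t - f t) =
          (∫ t in Ioi (0 : ℝ), h t * (g t - f t)) -
            h t0 * ∫ t in Ioi (0 : ℝ), (g t - f t) := by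
        rw [← integral_const_mul, ← integral_sub hd (hgf.const_mul _)]
        refine integral_congr_ae ?_
        filter_upwards with t
        ring
      rw [e, hz, mul_zero, sub_zero] at hI
      exact hI

end Pool.Agent.Helper52.GR
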