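import Pool.Agent.Helper52.GR.Gam3
import Pool.Agent.Helper52.GR.Law1

/-!
Moments of the comparison law, and the moment inequality (module LAW of the
three halves chain, part 2).
-/

namespace Pool.Agent.Helper52.GR

open MeasureTheory Set

/-- The comparison density. -/
noncomputable def gc (c0 k : ℝ) (t : ℝ) : ℝ := c0 * Real.exp (-(k ^ 3) * t ^ (3 / 2 : ℝ))

theorem kpow {k : ℝ} (hk : 0 < k) (q : ℝ) :
    (k ^ 3 : ℝ) ^ (-(q + 1) / (3 / 2 : ℝ)) = k ^ (-2 * (q + 1)) := by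
  rw [← Real.rpow_natCast, ← Real.rpow_mul hk.le]
  have e : (((3 : ℕ) : ℝ) * (-(q + 1) / (3 / 2 : ℝ))) = -2 * (q + 1) := by
    push_cast; ring
  rw [e]

theorem gc_int {k : ℝ} (hk : 0 < k) {q : ℝ} (hq : -1 < q) :
    IntegrableOn (fun t : ℝ => t ^ q * Real.exp (-(k ^ 3) * t ^ (3 / 2 : ℝ))) (Ioi 0) := by
  refine integrableOn_rpow_mul_exp_neg_mul_rpow hq (by norm_num) (by positivity)

theorem gc_mom {k : ℝ} (hk : 0 < k) {q : ℝ} (hq : -1 < q) :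
    ∫ t in Ioi (0 : ℝ), t ^ q * Real.exp (-(k ^ 3) * t ^ (3 / 2 : ℝ)) =
      k ^ (-2 * (q + 1)) * (2 / 3) * Real.Gamma ((q + 1) / (3 / 2)) := by
  rw [integral_rpow_mul_exp_neg_mul_rpow (by norm_num) hq (by positivity), kpow hk]
  norm_num

theorem gc_mom0 {k : ℝ} (hk : 0 < k) :
    ∫ t in Ioi (0 : ℝ), Real.exp (-(k ^ 3) * t ^ (3 / 2 : ℝ)) =
      Real.Gamma (5 / 3) / k ^ 2 := by
  have h := gc_mom hk (q := 0) (by norm_num)
  have e : ∫ t in Ioi (0 : ℝ), t ^ (0 : ℝ) * Real.exp (-(k ^ 3) * t ^ (3 / 2 : ℝ)) =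
      ∫ t in Ioi (0 : ℝ), Real.exp (-(k ^ 3) * t ^ (3 / 2 : ℝ)) := by
    refine integral_congr_ae ?_
    filter_upwards with t
    simp
  rw [e] at h
  rw [h]
  have e2 : ((0 + 1) / (3 / 2) : ℝ) = 2 / 3 := by norm_num
  have e3 : Real.Gamma (5 / 3) = 2 / 3 * Real.Gamma (2 / 3) := by
    have := Real.Gamma_add_one (s := 2 / 3) (by norm_num)
    rw [← this]
    norm_num
  have e4 : k ^ (-2 * (0 + 1) : ℝ) = 1 / k ^ 2 := by
    rw [show (-2 * (0 + 1) : ℝ) = -((2 : ℕ) : ℝ) by norm_num, Real.rpow_neg hk.le,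
      Real.rpow_natCast]
    ring
  rw [e2, e3, e4]
  ring

theorem gc_mom1 {k : ℝ} (hk : 0 < k) :
    ∫ t in Ioi (0 : ℝ), t * Real.exp (-(k ^ 3) * t ^ (3 / 2 : ℝ)) =
      (2 / 3) * Real.Gamma (4 / 3) / k ^ 4 := by
  have h := gc_mom hk (q := 1) (by norm_num)
  have e : ∫ t in Ioi (0 : ℝ), t ^ (1 : ℝ) * Real.exp (-(k ^ 3) * t ^ (3 / 2 : ℝ)) =
      ∫ t in Ioi (0 : ℝ), t * Real.exp (-(k ^ 3) * t ^ (3 / 2 : ℝ)) := by
    refine integral_congr_ae ?_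
    filter_upwards with t
    simp
  rw [e] at h
  rw [h]
  have e2 : ((1 + 1) / (3 / 2) : ℝ) = 4 / 3 := by norm_num
  have e4 : k ^ (-2 * (1 + 1) : ℝ) = 1 / k ^ 4 := by
    rw [show (-2 * (1 + 1) : ℝ) = -((4 : ℕ) : ℝ) by norm_num, Real.rpow_neg hk.le,
      Real.rpow_natCast]
    ring
  rw [e2, e4]
  ring

theorem gc_momh {k : ℝ} (hk : 0 < k) :
    ∫ t in Ioi (0 : ℝ), Real.sqrt t * Real.exp (-(k ^ 3) * t ^ (3 / 2 : ℝ)) =
      (2 / 3) / k ^ 3 := by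
  have h := gc_mom hk (q := 1 / 2) (by norm_num)
  have e : ∫ t in Ioi (0 : ℝ), t ^ (1 / 2 : ℝ) * Real.exp (-(k ^ 3) * t ^ (3 / 2 : ℝ)) =
      ∫ t in Ioi (0 : ℝ), Real.sqrt t * Real.exp (-(k ^ 3) * t ^ (3 / 2 : ℝ)) := by
    refine integral_congr_ae ?_
    filter_upwards with t
    rw [Real.sqrt_eq_rpow]
  rw [e] at h
  rw [h]
  have e2 : ((1 / 2 + 1) / (3 / 2) : ℝ) = 1 := by norm_num
  have e4 : k ^ (-2 * (1 / 2 + 1) : ℝ) = 1 / k ^ 3 := by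
    rw [show (-2 * (1 / 2 + 1) : ℝ) = -((3 : ℕ) : ℝ) by norm_num, Real.rpow_neg hk.le,
      Real.rpow_natCast]
    ring
  rw [e2, e4, Real.Gamma_one]
  ring

theorem gc_momm {k : ℝ} (hk : 0 < k) :
    ∫ t in Ioi (0 : ℝ), 1 / Real.sqrt t * Real.exp (-(k ^ 3) * t ^ (3 / 2 : ℝ)) =
      2 * Real.Gamma (4 / 3) / k := by
  have h := gc_mom hk (q := -(1 / 2)) (by norm_num)
  have e : ∫ t in Ioi (0 : ℝ), t ^ (-(1 / 2) : ℝ) * Real.exp (-(k ^ 3) * t ^ (3 / 2 : ℝ)) =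
      ∫ t in Ioi (0 : ℝ), 1 / Real.sqrt t * Real.exp (-(k ^ 3) * t ^ (3 / 2 : ℝ)) := by
    refine integral_congr_ae ?_
    filter_upwards [ae_restrict_mem measurableSet_Ioi] with t ht
    rw [Real.sqrt_eq_rpow, Real.rpow_neg (le_of_lt ht)]
    ring
  rw [e] at h
  rw [h]
  have e2 : ((-(1 / 2) + 1) / (3 / 2) : ℝ) = 1 / 3 := by norm_num
  have e3 : Real.Gamma (4 / 3) = 1 / 3 * Real.Gamma (1 / 3) := by
    have := Real.Gamma_add_one (s := 1 / 3) (by norm_num)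
    rw [← this]
    norm_num
  have e4 : k ^ (-2 * (-(1 / 2) + 1) : ℝ) = 1 / k := by
    rw [show (-2 * (-(1 / 2) + 1) : ℝ) = -1 by norm_num, Real.rpow_neg_one]
    ring
  rw [e2, e3, e4]
  ring

theorem gc_mom2 {k : ℝ} (hk : 0 < k) :
    ∫ t in Ioi (0 : ℝ), t ^ 2 * Real.exp (-(k ^ 3) * t ^ (3 / 2 : ℝ)) =
      (2 / 3) / k ^ 6 := by
  have h := gc_mom hk (q := 2) (by norm_num)
  have e : ∫ t in Ioi (0 : ℝ), t ^ (2 : ℝ) * Real.exp (-(k ^ 3) * t ^ (3 / 2 : ℝ)) =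
      ∫ t in Ioi (0 : ℝ), t ^ 2 * Real.exp (-(k ^ 3) * t ^ (3 / 2 : ℝ)) := by
    refine integral_congr_ae ?_
    filter_upwards with t
    norm_num
  rw [e] at h
  rw [h]
  have e2 : ((2 + 1) / (3 / 2) : ℝ) = 2 := by norm_num
  have e4 : k ^ (-2 * (2 + 1) : ℝ) = 1 / k ^ 6 := by
    rw [show (-2 * (2 + 1) : ℝ) = -((6 : ℕ) : ℝ) by norm_num, Real.rpow_neg hk.le,
      Real.rpow_natCast]
    ring
  rw [e2, e4, Real.Gamma_two]
  ring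

theorem gi0 {k : ℝ} (hk : 0 < k) :
    IntegrableOn (fun t : ℝ => Real.exp (-(k ^ 3) * t ^ (3 / 2 : ℝ))) (Ioi 0) := by
  refine (gc_int hk (q := 0) (by norm_num)).congr ?_
  filter_upwards with t
  simp

theorem gi1 {k : ℝ} (hk : 0 < k) :
    IntegrableOn (fun t : ℝ => t * Real.exp (-(k ^ 3) * t ^ (3 / 2 : ℝ))) (Ioi 0) := by
  refine (gc_int hk (q := 1) (by norm_num)).congr ?_
  filter_upwards with t
  simp

theorem gih {k : ℝ} (hk : 0 < k) :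
    IntegrableOn (fun t : ℝ => Real.sqrt t * Real.exp (-(k ^ 3) * t ^ (3 / 2 : ℝ))) (Ioi 0) := by
  refine (gc_int hk (q := 1 / 2) (by norm_num)).congr ?_
  filter_upwards with t
  rw [Real.sqrt_eq_rpow]

theorem gim {k : ℝ} (hk : 0 < k) :
    IntegrableOn (fun t : ℝ => 1 / Real.sqrt t * Real.exp (-(k ^ 3) * t ^ (3 / 2 : ℝ)))
      (Ioi 0) := by
  refine (gc_int hk (q := -(1 / 2)) (by norm_num)).congr ?_
  filter_upwards [ae_restrict_mem measurableSet_Ioi] with t ht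
  rw [Real.sqrt_eq_rpow, Real.rpow_neg (le_of_lt ht)]
  ring

theorem gi2 {k : ℝ} (hk : 0 < k) :
    IntegrableOn (fun t : ℝ => t ^ 2 * Real.exp (-(k ^ 3) * t ^ (3 / 2 : ℝ))) (Ioi 0) := by
  refine (gc_int hk (q := 2) (by norm_num)).congr ?_
  filter_upwards with t
  norm_num

/-- The test function. -/
noncomputable def hs (s t : ℝ) : ℝ :=
  2 / s ^ 2 * t + 6 - 6 / s * Real.sqrt t - 2 * s * (1 / Real.sqrt t)

theorem amgm3 {a b s : ℝ} (ha : 0 < a) (hb : 0 < b) (hs : 0 < s) :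
    3 * s * (a * b) ≤ a * b * (a + b) + s ^ 3 := by
  obtain ⟨m, hm, hm2⟩ : ∃ m : ℝ, 0 < m ∧ m ^ 2 = a * b :=
    ⟨Real.sqrt (a * b), Real.sqrt_pos.2 (by positivity), Real.sq_sqrt (by positivity)⟩
  have h1 : 2 * m ≤ a + b := by
    have : (2 * m) ^ 2 ≤ (a + b) ^ 2 := by nlinarith [sq_nonneg (a - b)]
    exact le_of_sq_le_sq (by linarith) (by positivity)
  rw [← hm2]
  have h2 : m ^ 2 * (2 * m) ≤ m ^ 2 * (a + b) := mul_le_mul_of_nonneg_left h1 (by positivity)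
  nlinarith [mul_nonneg (sq_nonneg (m - s)) (by positivity : 0 ≤ 2 * m + s)]

theorem hs_mono {s : ℝ} (hs0 : 0 < s) : MonotoneOn (hs s) (Ioi 0) := by
  intro x hx y hy hxy
  have hx' : (0 : ℝ) < x := hx
  have hy' : (0 : ℝ) < y := hy
  obtain ⟨a, ha, ha2⟩ : ∃ a : ℝ, 0 < a ∧ Real.sqrt x = a := ⟨_, Real.sqrt_pos.2 hx', rfl⟩
  obtain ⟨b, hb, hb2⟩ : ∃ b : ℝ, 0 < b ∧ Real.sqrt y = b := ⟨_, Real.sqrt_pos.2 hy', rfl⟩
  have hab : a ≤ b := by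
    rw [← ha2, ← hb2]; exact Real.sqrt_le_sqrt hxy
  have ex : x = a ^ 2 := by rw [← ha2, Real.sq_sqrt hx'.le]
  have ey : y = b ^ 2 := by rw [← hb2, Real.sq_sqrt hy'.le]
  unfold hs
  rw [ha2, hb2, ex, ey]
  have key : (2 / s ^ 2 * b ^ 2 + 6 - 6 / s * b - 2 * s * (1 / b)) -
      (2 / s ^ 2 * a ^ 2 + 6 - 6 / s * a - 2 * s * (1 / a)) =
      (b - a) * (2 * (a * b * (a + b) + s ^ 3 - 3 * s * (a * b)) / (s ^ 2 * (a * b))) := by
    field_simp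
    ring
  have h0 := amgm3 ha hb hs0
  have : 0 ≤ (b - a) * (2 * (a * b * (a + b) + s ^ 3 - 3 * s * (a * b)) /
      (s ^ 2 * (a * b))) := by
    refine mul_nonneg (by linarith) (div_nonneg ?_ (by positivity))
    linarith
  linarith

end Pool.Agent.Helper52.GR
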