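import Pool.Agent.Helper52.GR.Law2

/-!
The moment inequality for star shaped laws, and the bound for pairs (module LAW of the
three halves chain, part 3).
-/

namespace Pool.Agent.Helper52.GR

open MeasureTheory Set

theorem int3 {α : Type*} [MeasurableSpace α] {μ : Measure α} {u v w : α → ℝ}
    (hu : Integrable u μ) (hv : Integrable v μ) (hw : Integrable w μ) (a b c : ℝ) :
    Integrable (fun x => a * u x - b * v x - c * w x) μ ∧
    ∫ x, (a * u x - b * v x - c * w x) ∂μ =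
      a * ∫ x, u x ∂μ - b * ∫ x, v x ∂μ - c * ∫ x, w x ∂μ := by
  have h1 : Integrable (fun x => a * u x) μ := hu.const_mul a
  have h2 : Integrable (fun x => b * v x) μ := hv.const_mul b
  have h3 : Integrable (fun x => c * w x) μ := hw.const_mul c
  have h12 : Integrable (fun x => a * u x - b * v x) μ := h1.sub h2
  refine ⟨h12.sub h3, ?_⟩
  rw [integral_sub h12 h3, integral_sub h1 h2, integral_const_mul, integral_const_mul,
    integral_const_mul]

theorem hs_int {f : ℝ → ℝ} (s : ℝ) (I0 : IntegrableOn f (Ioi 0))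
    (I1 : IntegrableOn (fun t => t * f t) (Ioi 0))
    (Ih : IntegrableOn (fun t => Real.sqrt t * f t) (Ioi 0))
    (Im : IntegrableOn (fun t => 1 / Real.sqrt t * f t) (Ioi 0)) :
    IntegrableOn (fun t => hs s t * f t) (Ioi 0) ∧
    ∫ t in Ioi (0 : ℝ), hs s t * f t =
      2 / s ^ 2 * (∫ t in Ioi (0 : ℝ), t * f t) + 6 * (∫ t in Ioi (0 : ℝ), f t) -
      6 / s * (∫ t in Ioi (0 : ℝ), Real.sqrt t * f t) -
      2 * s * ∫ t in Ioi (0 : ℝ), 1 / Real.sqrt t * f t := by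
  have a1 := I1.const_mul (2 / s ^ 2)
  have a0 := I0.const_mul 6
  have ah := Ih.const_mul (6 / s)
  have am := Im.const_mul (2 * s)
  have e : (fun t => hs s t * f t) =
      fun t => (2 / s ^ 2 * (t * f t) + 6 * f t - 6 / s * (Real.sqrt t * f t)) -
        2 * s * (1 / Real.sqrt t * f t) := by
    funext t
    unfold hs
    ring
  have b1 : IntegrableOn (fun t => 2 / s ^ 2 * (t * f t) + 6 * f t) (Ioi 0) := a1.add a0
  have b2 : IntegrableOn (fun t => 2 / s ^ 2 * (t * f t) + 6 * f t -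
      6 / s * (Real.sqrt t * f t)) (Ioi 0) := b1.sub ah
  refine ⟨?_, ?_⟩
  · rw [e]
    exact b2.sub am
  · rw [e, integral_sub b2 am, integral_sub b1 ah, integral_add a1 a0, integral_const_mul,
      integral_const_mul, integral_const_mul, integral_const_mul]

/-- The comparison, for one value of the parameter. -/
theorem star_cmp {f : ℝ → ℝ} {c0 k : ℝ} (hc0 : 0 < c0) (hk : 0 < k)
    (hk2 : k ^ 2 = 2 * c0 * Real.Gamma (5 / 3))
    (hfp : ∀ x, 0 < x → 0 < f x)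
    (hstar : ∀ x y, 0 < x → x ≤ y →
      Real.log (c0 / f x) / x ^ (3 / 2 : ℝ) ≤ Real.log (c0 / f y) / y ^ (3 / 2 : ℝ))
    (I0 : IntegrableOn f (Ioi 0))
    (I1 : IntegrableOn (fun t => t * f t) (Ioi 0))
    (Ih : IntegrableOn (fun t => Real.sqrt t * f t) (Ioi 0))
    (Im : IntegrableOn (fun t => 1 / Real.sqrt t * f t) (Ioi 0))
    (m0 : ∫ t in Ioi (0 : ℝ), f t = 1 / 2)
    {A C D : ℝ}
    (m1 : 4 * ∫ t in Ioi (0 : ℝ), t * f t = A)
    (mh : 3 * ∫ t in Ioi (0 : ℝ), Real.sqrt t * f t = C)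
    (mm : ∫ t in Ioi (0 : ℝ), 1 / Real.sqrt t * f t = D)
    {s : ℝ} (hs0 : 0 < s) :
    A / s ^ 2 - 4 * C / s - 4 * s * D ≤
      (8 / 3 * c0 * Real.Gamma (4 / 3) / k ^ 4) / s ^ 2 - 4 * (2 * c0 / k ^ 3) / s -
        4 * s * (2 * c0 * Real.Gamma (4 / 3) / k) := by
  have G5 : 0 < Real.Gamma (5 / 3) := Real.Gamma_pos_of_pos (by norm_num)
  -- the comparison density
  set g : ℝ → ℝ := fun t => c0 * Real.exp (-(k ^ 3) * t ^ (3 / 2 : ℝ)) with hg
  have g0 : IntegrableOn g (Ioi 0) := (gi0 hk).const_mul c0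
  have g1 : IntegrableOn (fun t => t * g t) (Ioi 0) := by
    refine ((gi1 hk).const_mul c0).congr ?_
    filter_upwards with t
    simp only [hg]
    ring
  have gh : IntegrableOn (fun t => Real.sqrt t * g t) (Ioi 0) := by
    refine ((gih hk).const_mul c0).congr ?_
    filter_upwards with t
    simp only [hg]
    ring
  have gm : IntegrableOn (fun t => 1 / Real.sqrt t * g t) (Ioi 0) := by
    refine ((gim hk).const_mul c0).congr ?_
    filter_upwards with t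
    simp only [hg]
    ring
  have M0 : ∫ t in Ioi (0 : ℝ), g t = 1 / 2 := by
    simp only [hg]
    rw [integral_const_mul, gc_mom0 hk, hk2]
    field_simp
  have M1 : ∫ t in Ioi (0 : ℝ), t * g t = c0 * ((2 / 3) * Real.Gamma (4 / 3) / k ^ 4) := by
    rw [← gc_mom1 hk, ← integral_const_mul]
    refine integral_congr_ae ?_
    filter_upwards with t
    simp only [hg]
    ring
  have Mh : ∫ t in Ioi (0 : ℝ), Real.sqrt t * g t = c0 * ((2 / 3) / k ^ 3) := by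
    rw [← gc_momh hk, ← integral_const_mul]
    refine integral_congr_ae ?_
    filter_upwards with t
    simp only [hg]
    ring
  have Mm : ∫ t in Ioi (0 : ℝ), 1 / Real.sqrt t * g t =
      c0 * (2 * Real.Gamma (4 / 3) / k) := by
    rw [← gc_momm hk, ← integral_const_mul]
    refine integral_congr_ae ?_
    filter_upwards with t
    simp only [hg]
    ring
  have hS : ∀ x y, 0 < x → x ≤ y → f x < g x → f y < g y := by
    intro x y hx hxy hfg
    have hy : 0 < y := lt_of_lt_of_le hx hxy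
    have hx3 : 0 < x ^ (3 / 2 : ℝ) := Real.rpow_pos_of_pos hx _
    have hy3 : 0 < y ^ (3 / 2 : ℝ) := Real.rpow_pos_of_pos hy _
    have h1 : k ^ 3 < Real.log (c0 / f x) / x ^ (3 / 2 : ℝ) := by
      rw [lt_div_iff₀ hx3, Real.lt_log_iff_exp_lt (div_pos hc0 (hfp x hx)),
        lt_div_iff₀ (hfp x hx)]
      simp only [hg] at hfg
      have h2 := mul_lt_mul_of_pos_left hfg (Real.exp_pos (k ^ 3 * x ^ (3 / 2 : ℝ)))
      have h3 : Real.exp (k ^ 3 * x ^ (3 / 2 : ℝ)) *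
          (c0 * Real.exp (-(k ^ 3) * x ^ (3 / 2 : ℝ))) = c0 := by
        rw [mul_left_comm, ← Real.exp_add]
        have : k ^ 3 * x ^ (3 / 2 : ℝ) + -(k ^ 3) * x ^ (3 / 2 : ℝ) = 0 := by ring
        rw [this, Real.exp_zero, mul_one]
      rw [h3] at h2
      exact h2
    have h4 := lt_of_lt_of_le h1 (hstar x y hx hxy)
    rw [lt_div_iff₀ hy3, Real.lt_log_iff_exp_lt (div_pos hc0 (hfp y hy)),
      lt_div_iff₀ (hfp y hy)] at h4
    simp only [hg]
    have h5 := mul_lt_mul_of_pos_left h4 (Real.exp_pos (-(k ^ 3) * y ^ (3 / 2 : ℝ)))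
    have h6 : Real.exp (-(k ^ 3) * y ^ (3 / 2 : ℝ)) *
        (Real.exp (k ^ 3 * y ^ (3 / 2 : ℝ)) * f y) = f y := by
      rw [← mul_assoc, ← Real.exp_add]
      have : -(k ^ 3) * y ^ (3 / 2 : ℝ) + k ^ 3 * y ^ (3 / 2 : ℝ) = 0 := by ring
      rw [this, Real.exp_zero, one_mul]
    rw [h6] at h5
    linarith [mul_comm (Real.exp (-(k ^ 3) * y ^ (3 / 2 : ℝ))) c0]
  obtain ⟨Hf, Ef⟩ := hs_int s I0 I1 Ih Im
  obtain ⟨Hg, Eg⟩ := hs_int s g0 g1 gh gm
  have hc := cross I0 g0 (by rw [m0, M0]) hS (hs_mono hs0) Hf Hg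
  rw [Ef, Eg, m0, M0, M1, Mh, Mm, mm] at hc
  have q1 : ∫ t in Ioi (0 : ℝ), t * f t = A / 4 := by linarith
  have qh : ∫ t in Ioi (0 : ℝ), Real.sqrt t * f t = C / 3 := by linarith
  rw [q1, qh] at hc
  have e1 : A / s ^ 2 - 4 * C / s - 4 * s * D =
      2 * (2 / s ^ 2 * (A / 4) + 6 * (1 / 2) - 6 / s * (C / 3) - 2 * s * D) - 6 := by
    field_simp
    ring
  have e2 : (8 / 3 * c0 * Real.Gamma (4 / 3) / k ^ 4) / s ^ 2 - 4 * (2 * c0 / k ^ 3) / s -
        4 * s * (2 * c0 * Real.Gamma (4 / 3) / k) =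
      2 * (2 / s ^ 2 * (c0 * ((2 / 3) * Real.Gamma (4 / 3) / k ^ 4)) + 6 * (1 / 2) -
        6 / s * (c0 * ((2 / 3) / k ^ 3)) -
        2 * s * (c0 * (2 * Real.Gamma (4 / 3) / k))) - 6 := by
    field_simp
    ring
  rw [e1, e2]
  linarith

/-- The moment inequality. -/
theorem law_mom {Ω : Type*} [MeasurableSpace Ω] (P : Measure Ω)
    {t : Ω → ℝ} {f : ℝ → ℝ} {c0 : ℝ} (hc0 : 0 < c0)
    (hfp : ∀ x, 0 < x → 0 < f x)
    (hstar : ∀ x y, 0 < x → x ≤ y →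
      Real.log (c0 / f x) / x ^ (3 / 2 : ℝ) ≤ Real.log (c0 / f y) / y ^ (3 / 2 : ℝ))
    (I0 : IntegrableOn f (Ioi 0))
    (I1 : IntegrableOn (fun t => t * f t) (Ioi 0))
    (Ih : IntegrableOn (fun t => Real.sqrt t * f t) (Ioi 0))
    (Im : IntegrableOn (fun t => 1 / Real.sqrt t * f t) (Ioi 0))
    (m0 : ∫ t in Ioi (0 : ℝ), f t = 1 / 2)
    {A C D : ℝ}
    (m1 : 4 * ∫ t in Ioi (0 : ℝ), t * f t = A)
    (mh : 3 * ∫ t in Ioi (0 : ℝ), Real.sqrt t * f t = C)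
    (mm : ∫ t in Ioi (0 : ℝ), 1 / Real.sqrt t * f t = D)
    (htp : ∀ᵐ w ∂P, 0 < t w)
    (J1 : Integrable (fun w => 1 / t w) P) (Jh : Integrable (fun w => Real.sqrt (t w)) P)
    (Jm : Integrable (fun w => 1 / Real.sqrt (t w)) P)
    (n1 : ∫ w, 1 / t w ∂P = 2 * c0) (nh : ∫ w, Real.sqrt (t w) ∂P = C)
    (nm : ∫ w, 1 / Real.sqrt (t w) ∂P = D) :
    2 * A * (2 * c0) + 6 - 8 * C * D ≤ 24 / 100 := by
  have G5 : 0 < Real.Gamma (5 / 3) := Real.Gamma_pos_of_pos (by norm_num)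
  have G4 : 0 < Real.Gamma (4 / 3) := Real.Gamma_pos_of_pos (by norm_num)
  obtain ⟨k, hk, hk2⟩ : ∃ k : ℝ, 0 < k ∧ k ^ 2 = 2 * c0 * Real.Gamma (5 / 3) :=
    ⟨Real.sqrt (2 * c0 * Real.Gamma (5 / 3)), Real.sqrt_pos.2 (by positivity),
      Real.sq_sqrt (by positivity)⟩
  have hcmp := fun (s : ℝ) (hs0 : 0 < s) =>
    star_cmp hc0 hk hk2 hfp hstar I0 I1 Ih Im m0 m1 mh mm hs0
  set Ag : ℝ := 8 / 3 * c0 * Real.Gamma (4 / 3) / k ^ 4 with hAg
  set Cg : ℝ := 2 * c0 / k ^ 3 with hCg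
  set Dg : ℝ := 2 * c0 * Real.Gamma (4 / 3) / k with hDg
  -- first integration, against the law of t
  have s1 : A * (2 * c0) - 4 * C * D - 4 * C * D ≤
      Ag * (2 * c0) - 4 * Cg * D - 4 * C * Dg := by
    have il : Integrable (fun w => A * (1 / t w) - 4 * C * (1 / Real.sqrt (t w)) -
        4 * D * Real.sqrt (t w)) P :=
      ((J1.const_mul A).sub (Jm.const_mul (4 * C))).sub (Jh.const_mul (4 * D))
    have ir : Integrable (fun w => Ag * (1 / t w) - 4 * Cg * (1 / Real.sqrt (t w)) -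
        4 * Dg * Real.sqrt (t w)) P :=
      ((J1.const_mul Ag).sub (Jm.const_mul (4 * Cg))).sub (Jh.const_mul (4 * Dg))
    have hle : ∫ w, (A * (1 / t w) - 4 * C * (1 / Real.sqrt (t w)) -
        4 * D * Real.sqrt (t w)) ∂P ≤ ∫ w, (Ag * (1 / t w) - 4 * Cg * (1 / Real.sqrt (t w)) -
        4 * Dg * Real.sqrt (t w)) ∂P := by
      refine integral_mono_ae il ir ?_
      filter_upwards [htp] with w hw
      have h := hcmp (Real.sqrt (t w)) (Real.sqrt_pos.2 hw)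
      rw [Real.sq_sqrt hw.le] at h
      have e1 : A * (1 / t w) - 4 * C * (1 / Real.sqrt (t w)) - 4 * D * Real.sqrt (t w) =
          A / t w - 4 * C / Real.sqrt (t w) - 4 * Real.sqrt (t w) * D := by ring
      have e2 : Ag * (1 / t w) - 4 * Cg * (1 / Real.sqrt (t w)) - 4 * Dg * Real.sqrt (t w) =
          Ag / t w - 4 * Cg / Real.sqrt (t w) - 4 * Real.sqrt (t w) * Dg := by ring
      simp only [e1, e2]
      exact h
    have el : ∫ w, (A * (1 / t w) - 4 * C * (1 / Real.sqrt (t w)) -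
        4 * D * Real.sqrt (t w)) ∂P = A * (2 * c0) - 4 * C * D - 4 * D * C := by
      rw [(int3 J1 Jm Jh A (4 * C) (4 * D)).2, n1, nh, nm]
    have er : ∫ w, (Ag * (1 / t w) - 4 * Cg * (1 / Real.sqrt (t w)) -
        4 * Dg * Real.sqrt (t w)) ∂P = Ag * (2 * c0) - 4 * Cg * D - 4 * Dg * C := by
      rw [(int3 J1 Jm Jh Ag (4 * Cg) (4 * Dg)).2, n1, nh, nm]
    rw [el, er] at hle
    linarith
  -- second integration, against the comparison law
  have s2 : A * (2 * c0) - 4 * C * Dg - 4 * Cg * D ≤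
      Ag * (2 * c0) - 4 * Cg * Dg - 4 * Cg * Dg := by
    have jh := gih hk
    have j1 := gi1 hk
    have j2 := gi2 hk
    have il : IntegrableOn (fun x : ℝ => A * (Real.sqrt x * Real.exp (-(k ^ 3) * x ^ (3 / 2 : ℝ)))
        - 4 * C * (x * Real.exp (-(k ^ 3) * x ^ (3 / 2 : ℝ)))
        - 4 * D * (x ^ 2 * Real.exp (-(k ^ 3) * x ^ (3 / 2 : ℝ)))) (Ioi 0) :=
      ((jh.const_mul A).sub (j1.const_mul (4 * C))).sub (j2.const_mul (4 * D))
    have ir : IntegrableOn (fun x : ℝ => Ag * (Real.sqrt x * Real.exp (-(k ^ 3) * x ^ (3 / 2 : ℝ)))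
        - 4 * Cg * (x * Real.exp (-(k ^ 3) * x ^ (3 / 2 : ℝ)))
        - 4 * Dg * (x ^ 2 * Real.exp (-(k ^ 3) * x ^ (3 / 2 : ℝ)))) (Ioi 0) :=
      ((jh.const_mul Ag).sub (j1.const_mul (4 * Cg))).sub (j2.const_mul (4 * Dg))
    have hle := integral_mono_ae il ir (by
      filter_upwards [ae_restrict_mem measurableSet_Ioi] with x hx
      have hx' : (0 : ℝ) < x := hx
      obtain ⟨a, ha, hax⟩ : ∃ a : ℝ, 0 < a ∧ Real.sqrt x = a := ⟨_, Real.sqrt_pos.2 hx', rfl⟩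
      have exx : x = a ^ 2 := by rw [← hax, Real.sq_sqrt hx'.le]
      have h := hcmp a ha
      have h3 : 0 ≤ a ^ 3 * Real.exp (-(k ^ 3) * x ^ (3 / 2 : ℝ)) := by positivity
      have h4 := mul_le_mul_of_nonneg_left h h3
      have e1 : A * (Real.sqrt x * Real.exp (-(k ^ 3) * x ^ (3 / 2 : ℝ)))
        - 4 * C * (x * Real.exp (-(k ^ 3) * x ^ (3 / 2 : ℝ)))
        - 4 * D * (x ^ 2 * Real.exp (-(k ^ 3) * x ^ (3 / 2 : ℝ))) =
          a ^ 3 * Real.exp (-(k ^ 3) * x ^ (3 / 2 : ℝ)) *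
          (A / a ^ 2 - 4 * C / a - 4 * a * D) := by
        rw [hax]
        generalize Real.exp (-(k ^ 3) * x ^ (3 / 2 : ℝ)) = E
        rw [exx]
        field_simp
      have e2 : Ag * (Real.sqrt x * Real.exp (-(k ^ 3) * x ^ (3 / 2 : ℝ)))
        - 4 * Cg * (x * Real.exp (-(k ^ 3) * x ^ (3 / 2 : ℝ)))
        - 4 * Dg * (x ^ 2 * Real.exp (-(k ^ 3) * x ^ (3 / 2 : ℝ))) =
          a ^ 3 * Real.exp (-(k ^ 3) * x ^ (3 / 2 : ℝ)) *
          (Ag / a ^ 2 - 4 * Cg / a - 4 * a * Dg) := by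
        rw [hax]
        generalize Real.exp (-(k ^ 3) * x ^ (3 / 2 : ℝ)) = E
        generalize Ag = Ag'
        generalize Cg = Cg'
        generalize Dg = Dg'
        rw [exx]
        field_simp
      simp only [e1, e2]
      exact h4)
    have el : ∫ x in Ioi (0 : ℝ), (A * (Real.sqrt x * Real.exp (-(k ^ 3) * x ^ (3 / 2 : ℝ)))
        - 4 * C * (x * Real.exp (-(k ^ 3) * x ^ (3 / 2 : ℝ)))
        - 4 * D * (x ^ 2 * Real.exp (-(k ^ 3) * x ^ (3 / 2 : ℝ)))) =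
        A * ((2 / 3) / k ^ 3) - 4 * C * ((2 / 3) * Real.Gamma (4 / 3) / k ^ 4) -
          4 * D * ((2 / 3) / k ^ 6) := by
      rw [(int3 jh j1 j2 A (4 * C) (4 * D)).2, gc_momh hk, gc_mom1 hk, gc_mom2 hk]
    have er : ∫ x in Ioi (0 : ℝ), (Ag * (Real.sqrt x * Real.exp (-(k ^ 3) * x ^ (3 / 2 : ℝ)))
        - 4 * Cg * (x * Real.exp (-(k ^ 3) * x ^ (3 / 2 : ℝ)))
        - 4 * Dg * (x ^ 2 * Real.exp (-(k ^ 3) * x ^ (3 / 2 : ℝ)))) =
        Ag * ((2 / 3) / k ^ 3) - 4 * Cg * ((2 / 3) * Real.Gamma (4 / 3) / k ^ 4) -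
          4 * Dg * ((2 / 3) / k ^ 6) := by
      rw [(int3 jh j1 j2 Ag (4 * Cg) (4 * Dg)).2, gc_momh hk, gc_mom1 hk, gc_mom2 hk]
    rw [el, er] at hle
    have hm := mul_le_mul_of_nonneg_left hle (by positivity : 0 ≤ 3 * c0 * k ^ 3)
    have e3 : ∀ a c d : ℝ, 3 * c0 * k ^ 3 * (a * ((2 / 3) / k ^ 3) -
        4 * c * ((2 / 3) * Real.Gamma (4 / 3) / k ^ 4) - 4 * d * ((2 / 3) / k ^ 6)) =
        a * (2 * c0) - 4 * c * Dg - 4 * d * Cg := by
      intro a c d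
      rw [hDg, hCg]
      field_simp
    rw [e3, e3] at hm
    linarith
  have hfin : 2 * Ag * (2 * c0) - 8 * Cg * Dg ≤ -(576 / 100) := by
    have e4 : 2 * Ag * (2 * c0) - 8 * Cg * Dg =
        -(16 / 3) * (Real.Gamma (4 / 3) / Real.Gamma (5 / 3) ^ 2) := by
      have hc0k : c0 = k ^ 2 / (2 * Real.Gamma (5 / 3)) := by
        rw [hk2]; field_simp
      rw [hAg, hCg, hDg, hc0k]
      field_simp
      ring
    have h5 : 108 / 100 ≤ Real.Gamma (4 / 3) / Real.Gamma (5 / 3) ^ 2 := by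
      rw [le_div_iff₀ (by positivity)]
      exact gam3
    rw [e4]
    linarith
  linarith

end Pool.Agent.Helper52.GR
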