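import Pool.Agent.Helper52.GR.Law3

/-!
The bound for independent pairs (module LAW of the three halves chain, part 4).
-/

namespace Pool.Agent.Helper52.GR

open MeasureTheory Set

theorem ratio_mono {r w : ℝ} (hr : 1 ≤ r) (hrw : r ≤ w) :
    (r + 1 / r - 2) ^ 2 ≤ (w + 1 / w - 2) ^ 2 := by
  have hr0 : 0 < r := by linarith
  have hw0 : 0 < w := by linarith
  have h1 : 0 ≤ r + 1 / r - 2 := by
    have : r + 1 / r - 2 = (r - 1) ^ 2 / r := by field_simp; ring
    rw [this]; positivity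
  have h2 : r + 1 / r - 2 ≤ w + 1 / w - 2 := by
    have : (w + 1 / w - 2) - (r + 1 / r - 2) = (w - r) * ((w * r - 1) / (w * r)) := by
      field_simp; ring
    have h3 : 1 ≤ w * r := by nlinarith
    have : 0 ≤ (w - r) * ((w * r - 1) / (w * r)) :=
      mul_nonneg (by linarith) (div_nonneg (by linarith) (by positivity))
    linarith
  exact pow_le_pow_left₀ h1 h2 2

/-- Pointwise comparison of two sites. -/
theorem pair_pt {a b p q : ℝ} (ha : 0 < a) (hp : 0 < p) (hq : 0 < q)
    (hqp : q ≤ p) (hab : a * p ≤ b * q) :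
    (p / q + q / p - 2) ^ 2 ≤ (a / b + b / a - 2) ^ 2 := by
  have hb : 0 < b := by
    by_contra hcon
    push Not at hcon
    have : b * q ≤ 0 := mul_nonpos_of_nonpos_of_nonneg hcon hq.le
    have : 0 < a * p := mul_pos ha hp
    linarith
  have h1 : 1 ≤ p / q := by rw [le_div_iff₀ hq]; linarith
  have h2 : p / q ≤ b / a := by
    rw [div_le_div_iff₀ hq ha]
    linarith [mul_comm a p]
  have h := ratio_mono h1 h2
  have e1 : 1 / (p / q) = q / p := by rw [one_div_div]
  have e2 : 1 / (b / a) = a / b := by rw [one_div_div]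
  rw [e1, e2] at h
  have e3 : a / b + b / a - 2 = b / a + a / b - 2 := by ring
  rw [e3]
  exact h

theorem sq_expand {a b : ℝ} (ha : 0 < a) (hb : 0 < b) :
    (a / b + b / a - 2) ^ 2 =
      a ^ 2 * (1 / b ^ 2) + 1 / a ^ 2 * b ^ 2 + 6 - 4 * (a * (1 / b)) - 4 * (1 / a * b) := by
  field_simp
  ring

/-- The pair bound in terms of the four moments. -/
theorem law_pair {Ω : Type*} [MeasurableSpace Ω] (P : Measure Ω) [IsProbabilityMeasure P]
    {t y : Ω → ℝ} (htp : ∀ᵐ w ∂P, 0 < t w) (hyp : ∀ᵐ w ∂P, 0 < y w)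
    (hty : ∀ w w', 0 < t w → t w ≤ t w' → 0 < y w → 0 < y w' →
      y w' ≤ y w ∧ Real.sqrt (t w) * y w ≤ Real.sqrt (t w') * y w')
    (J0 : Integrable t P) (J1 : Integrable (fun w => 1 / t w) P)
    (Jh : Integrable (fun w => Real.sqrt (t w)) P)
    (Jm : Integrable (fun w => 1 / Real.sqrt (t w)) P) :
    ∫ w, ∫ w', (y w / y w' + y w' / y w - 2) ^ 2 ∂P ∂P ≤
      2 * (∫ w, t w ∂P) * (∫ w, 1 / t w ∂P) + 6 -
        8 * (∫ w, Real.sqrt (t w) ∂P) * (∫ w, 1 / Real.sqrt (t w) ∂P) := by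
  set A := ∫ w, t w ∂P with hA
  set B := ∫ w, 1 / t w ∂P with hB
  set C := ∫ w, Real.sqrt (t w) ∂P with hC
  set D := ∫ w, 1 / Real.sqrt (t w) ∂P with hD
  have hpt : ∀ w w', 0 < t w → 0 < t w' → 0 < y w → 0 < y w' →
      (y w / y w' + y w' / y w - 2) ^ 2 ≤
        t w * (1 / t w') + 1 / t w * t w' + 6 -
          4 * (Real.sqrt (t w) * (1 / Real.sqrt (t w'))) -
          4 * (1 / Real.sqrt (t w) * Real.sqrt (t w')) := by
    intro w w' h1 h2 h3 h4
    have sa : 0 < Real.sqrt (t w) := Real.sqrt_pos.2 h1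
    have sb : 0 < Real.sqrt (t w') := Real.sqrt_pos.2 h2
    have ex := sq_expand sa sb
    rw [Real.sq_sqrt h1.le, Real.sq_sqrt h2.le] at ex
    rw [← ex]
    rcases le_total (t w) (t w') with hle | hle
    · obtain ⟨u1, u2⟩ := hty w w' h1 hle h3 h4
      exact pair_pt sa h3 h4 u1 u2
    · obtain ⟨u1, u2⟩ := hty w' w h2 hle h4 h3
      have := pair_pt sb h4 h3 u1 u2
      have e1 : y w / y w' + y w' / y w - 2 = y w' / y w + y w / y w' - 2 := by ring
      have e2 : Real.sqrt (t w) / Real.sqrt (t w') + Real.sqrt (t w') / Real.sqrt (t w) - 2 =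
          Real.sqrt (t w') / Real.sqrt (t w) + Real.sqrt (t w) / Real.sqrt (t w') - 2 := by ring
      rw [e1, e2]
      exact this
  -- the inner integral
  have hin : ∀ᵐ w ∂P, ∫ w', (y w / y w' + y w' / y w - 2) ^ 2 ∂P ≤
      t w * B + 1 / t w * A + 6 - 4 * (Real.sqrt (t w) * D) -
        4 * (1 / Real.sqrt (t w) * C) := by
    filter_upwards [htp, hyp] with w hw hyw
    have i1 : Integrable (fun w' => t w * (1 / t w')) P := J1.const_mul _
    have i2 : Integrable (fun w' => 1 / t w * t w') P := J0.const_mul _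
    have i3 : Integrable (fun w' => 4 * (Real.sqrt (t w) * (1 / Real.sqrt (t w')))) P :=
      (Jm.const_mul _).const_mul _
    have i4 : Integrable (fun w' => 4 * (1 / Real.sqrt (t w) * Real.sqrt (t w'))) P :=
      (Jh.const_mul _).const_mul _
    have i6 : Integrable (fun _ : Ω => (6 : ℝ)) P := integrable_const _
    have j1 : Integrable (fun w' => t w * (1 / t w') + 1 / t w * t w') P := i1.add i2
    have j2 : Integrable (fun w' => t w * (1 / t w') + 1 / t w * t w' + 6) P := j1.add i6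
    have j3 : Integrable (fun w' => t w * (1 / t w') + 1 / t w * t w' + 6 -
        4 * (Real.sqrt (t w) * (1 / Real.sqrt (t w')))) P := j2.sub i3
    have hm : ∫ w', (y w / y w' + y w' / y w - 2) ^ 2 ∂P ≤
        ∫ w', (t w * (1 / t w') + 1 / t w * t w' + 6 -
          4 * (Real.sqrt (t w) * (1 / Real.sqrt (t w'))) -
          4 * (1 / Real.sqrt (t w) * Real.sqrt (t w'))) ∂P := by
      refine integral_mono_of_nonneg ?_ (j3.sub i4) ?_
      · filter_upwards with w'
        positivity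
      · filter_upwards [htp, hyp] with w' hw' hyw'
        exact hpt w w' hw hw' hyw hyw'
    refine hm.trans (le_of_eq ?_)
    rw [integral_sub j3 i4, integral_sub j2 i3, integral_add j1 i6, integral_add i1 i2,
      integral_const_mul, integral_const_mul, integral_const_mul, integral_const_mul,
      integral_const_mul, integral_const_mul, integral_const]
    simp only [probReal_univ, smul_eq_mul, one_mul]
    rfl
  have k1 : Integrable (fun w => t w * B) P := J0.mul_const _
  have k2 : Integrable (fun w => 1 / t w * A) P := J1.mul_const _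
  have k3 : Integrable (fun w => 4 * (Real.sqrt (t w) * D)) P := (Jh.mul_const _).const_mul _
  have k4 : Integrable (fun w => 4 * (1 / Real.sqrt (t w) * C)) P :=
    (Jm.mul_const _).const_mul _
  have k6 : Integrable (fun _ : Ω => (6 : ℝ)) P := integrable_const _
  have l1 : Integrable (fun w => t w * B + 1 / t w * A) P := k1.add k2
  have l2 : Integrable (fun w => t w * B + 1 / t w * A + 6) P := l1.add k6
  have l3 : Integrable (fun w => t w * B + 1 / t w * A + 6 - 4 * (Real.sqrt (t w) * D)) P :=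
    l2.sub k3
  have hout : ∫ w, ∫ w', (y w / y w' + y w' / y w - 2) ^ 2 ∂P ∂P ≤
      ∫ w, (t w * B + 1 / t w * A + 6 - 4 * (Real.sqrt (t w) * D) -
        4 * (1 / Real.sqrt (t w) * C)) ∂P := by
    refine integral_mono_of_nonneg ?_ (l3.sub k4) hin
    filter_upwards with w
    exact integral_nonneg fun w' => by positivity
  refine hout.trans (le_of_eq ?_)
  rw [integral_sub l3 k4, integral_sub l2 k3, integral_add l1 k6, integral_add k1 k2,
    integral_const_mul, integral_const_mul, integral_mul_const, integral_mul_const,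
    integral_mul_const, integral_mul_const, integral_const]
  simp only [probReal_univ, smul_eq_mul, one_mul]
  rw [← hA, ← hB, ← hC, ← hD]
  ring

/-- Module LAW, final form. -/
theorem law {Ω : Type*} [MeasurableSpace Ω] (P : Measure Ω) [IsProbabilityMeasure P]
    {t y : Ω → ℝ} (htp : ∀ᵐ w ∂P, 0 < t w) (hyp : ∀ᵐ w ∂P, 0 < y w)
    (hty : ∀ w w', 0 < t w → t w ≤ t w' → 0 < y w → 0 < y w' →
      y w' ≤ y w ∧ Real.sqrt (t w) * y w ≤ Real.sqrt (t w') * y w')
    {f : ℝ → ℝ} {c0 : ℝ} (hc0 : 0 < c0)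
    (hfp : ∀ x, 0 < x → 0 < f x)
    (hstar : ∀ x y, 0 < x → x ≤ y →
      Real.log (c0 / f x) / x ^ (3 / 2 : ℝ) ≤ Real.log (c0 / f y) / y ^ (3 / 2 : ℝ))
    (I0 : IntegrableOn f (Ioi 0))
    (I1 : IntegrableOn (fun t => t * f t) (Ioi 0))
    (Ih : IntegrableOn (fun t => Real.sqrt t * f t) (Ioi 0))
    (Im : IntegrableOn (fun t => 1 / Real.sqrt t * f t) (Ioi 0))
    (m0 : ∫ t in Ioi (0 : ℝ), f t = 1 / 2)
    (J0 : Integrable t P) (J1 : Integrable (fun w => 1 / t w) P)
    (Jh : Integrable (fun w => Real.sqrt (t w)) P)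
    (Jm : Integrable (fun w => 1 / Real.sqrt (t w)) P)
    (n0 : ∫ w, t w ∂P = 4 * ∫ t in Ioi (0 : ℝ), t * f t)
    (n1 : ∫ w, 1 / t w ∂P = 2 * c0)
    (nh : ∫ w, Real.sqrt (t w) ∂P = 3 * ∫ t in Ioi (0 : ℝ), Real.sqrt t * f t)
    (nm : ∫ w, 1 / Real.sqrt (t w) ∂P = ∫ t in Ioi (0 : ℝ), 1 / Real.sqrt t * f t) :
    ∫ w, ∫ w', (y w / y w' + y w' / y w - 2) ^ 2 ∂P ∂P ≤ 24 / 100 := by
  have h1 := law_pair P htp hyp hty J0 J1 Jh Jm
  have h2 := law_mom P hc0 hfp hstar I0 I1 Ih Im m0 n0.symm nh.symm nm.symm htp J1 Jh Jm n1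
    rfl rfl
  rw [n1] at h1
  exact h1.trans h2

end Pool.Agent.Helper52.GR
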