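import Pool.Agent.Helper75.GR.Stmts
import Pool.Agent.Helper67.LB.PLn

/-!
The discrete second order inequality for the marginal density (module MDI).
-/

open Finset MeasureTheory Filter Topology Matrix
open scoped ENNReal ContDiff

namespace Pool.Agent.Helper75.GR

open Pool.Agent.Helper44.GF Pool.Agent.Helper44.GN Pool.Agent.Helper44.GH

section MDIaux

variable {n m : ℕ} {Y : Type} [Fintype Y] [DecidableEq Y]

theorem mdi_tau {δ : ℝ} {r : Y → ℝ} (hδ : 0 < δ) (hr : ∀ y, 0 < r y)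
    (η : Finset (Fin n × Y)) : tau δ r η ∈ Og n := by
  intro x
  unfold tau
  have : 0 ≤ ∑ y, if (x, y) ∈ η then r y else 0 :=
    Finset.sum_nonneg fun y _ => by split_ifs; exacts [(hr y).le, le_refl _]
  linarith

variable {s ζ δ : ℝ} {r z : Y → ℝ} (V : Matrix (Fin n) (Fin m) ℝ)

theorem mdi_qf (hU : ST_UPD) (hM : MD s ζ δ r z) (hV : Function.Injective V.mulVec) (i : Fin n)
    (η : Finset (Fin n × Y)) : 0 < qf V (tau δ r η) :=
  (hU n m V V hV _ (mdi_tau hM.d0 hM.r0 η) i 0 le_rfl).2.1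

theorem mdi_hh (hU : ST_UPD) (hM : MD s ζ δ r z) (hV : Function.Injective V.mulVec) (i : Fin n)
    (hi : V i ≠ 0) (η : Finset (Fin n × Y)) : 0 < hh V (tau δ r η) i := by
  obtain ⟨-, -, h1, h2, -⟩ := hU n m V V hV _ (mdi_tau hM.d0 hM.r0 η) i 0 le_rfl
  exact lt_of_le_of_ne h1 fun h => hi (h2 h.symm)

omit [DecidableEq Y] in
theorem mdi_zw (hM : MD s ζ δ r z) (η : Finset (Fin n × Y)) : 0 < zw z η :=
  Finset.prod_pos fun x _ => hM.z0 x.2

theorem mdi_W1 (hU : ST_UPD) (hM : MD s ζ δ r z) (hV : Function.Injective V.mulVec) (i : Fin n)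
    (η : Finset (Fin n × Y)) : 0 < W1 V δ r z η :=
  mul_pos (mdi_zw hM η) (Real.rpow_pos_of_pos (mdi_qf V hU hM hV i η) _)

theorem mdi_MS (hU : ST_UPD) (hM : MD s ζ δ r z) (hV : Function.Injective V.mulVec)
    (i : Fin n) : 0 < MS V δ r z :=
  Finset.sum_pos (fun η _ => mdi_W1 V hU hM hV i η) ⟨∅, Finset.mem_univ _⟩

/-- The marginal density with weights. -/
noncomputable def mkd (V : Matrix (Fin n) (Fin m) ℝ) (δ : ℝ) (r z : Y → ℝ) (i : Fin n)
    (c : Finset (Fin n × Y) → ℝ) (t : ℝ) : ℝ :=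
  ∑ η : Finset (Fin n × Y), W1 V δ r z η
            * (1 / √Real.pi * (hh V (tau δ r η) i) ^ (-(1 / 2) : ℝ)
              * Real.exp (-(t ^ 2 / hh V (tau δ r η) i))) * c η

theorem mkd_cont (i : Fin n) (c : Finset (Fin n × Y) → ℝ) : Continuous (mkd V δ r z i c) := by
  unfold mkd
  fun_prop

theorem mkd_lin (i : Fin n) (c d : Finset (Fin n × Y) → ℝ) (a t : ℝ) :
    mkd V δ r z i (fun η => c η - a * d η) t
      = mkd V δ r z i c t - a * mkd V δ r z i d t := by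
  unfold mkd
  rw [Finset.mul_sum, ← Finset.sum_sub_distrib]
  refine Finset.sum_congr rfl fun η _ => ?_
  ring

theorem mkd_fd (hU : ST_UPD) (hM : MD s ζ δ r z) (hV : Function.Injective V.mulVec)
    (i : Fin n) (t : ℝ) :
    mkd V δ r z i (fun _ => 1) t = MS V δ r z * fd V δ r z i t := by
  have hMS := mdi_MS V hU hM hV i
  unfold mkd fd EX
  field_simp

theorem mkd_p3 (hU : ST_UPD) (hM : MD s ζ δ r z) (hV : Function.Injective V.mulVec)
    (i : Fin n) (hi : V i ≠ 0) (t : ℝ) (ht : 0 < t) :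
    mkd V δ r z i (fun η => (hh V (tau δ r η) i)⁻¹) t
      = MS V δ r z * (p3 V δ r z i t / (4 * t ^ 2)) := by
  have hMS := mdi_MS V hU hM hV i
  unfold mkd p3 EX
  have e0 : ∀ S : ℝ, MS V δ r z * (S / MS V δ r z / (4 * t ^ 2)) = S / (4 * t ^ 2) := by
    intro S
    field_simp
  rw [e0, Finset.sum_div]
  refine Finset.sum_congr rfl fun η _ => ?_
  have hp := mdi_hh V hU hM hV i hi η
  have e2 : (hh V (tau δ r η) i) ^ (-(3 / 2) : ℝ)
      = (hh V (tau δ r η) i) ^ (-(1 / 2) : ℝ) * (hh V (tau δ r η) i)⁻¹ := by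
    rw [← Real.rpow_neg_one, ← Real.rpow_add hp]
    norm_num
  beta_reduce
  rw [e2]
  field_simp

/-- The restriction to a slab. -/
noncomputable def slF (V : Matrix (Fin n) (Fin m) ℝ) (δ : ℝ) (r z : Y → ℝ) (i : Fin n)
    (c : Finset (Fin n × Y) → ℝ) (e t : ℝ) (x : Fin m → ℝ) : ℝ≥0∞ :=
  (Set.Icc t (t + e)).indicator (fun _ => (1 : ℝ≥0∞)) (V.mulVec x i)
    * ENNReal.ofReal (Zy δ r z c (V.mulVec x))

theorem mdi_c0 (j : Fin n) : Continuous fun x : Fin m → ℝ => V.mulVec x j := by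
  unfold Matrix.mulVec dotProduct
  fun_prop

theorem Zy_cont (c : Finset (Fin n × Y) → ℝ) :
    Continuous fun x : Fin m → ℝ => Zy δ r z c (V.mulVec x) := by
  unfold Zy
  refine continuous_finsetSum _ fun η _ => ?_
  refine (continuous_const.mul (Real.continuous_exp.comp (Continuous.neg ?_))).mul
    continuous_const
  exact continuous_finsetSum _ fun j _ => continuous_const.mul ((mdi_c0 V j).pow 2)

theorem slF_meas (i : Fin n) (c : Finset (Fin n × Y) → ℝ) (e t : ℝ) :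
    Measurable (slF V δ r z i c e t) := by
  unfold slF
  refine Measurable.mul ?_ (ENNReal.measurable_ofReal.comp (Zy_cont V c).measurable)
  exact (measurable_one.indicator measurableSet_Icc).comp (mdi_c0 V i).measurable

theorem slF_half (hK : ST_MK) (hM : MD s ζ δ r z)
    (hV : Function.Injective V.mulVec) (i : Fin n) (hi : V i ≠ 0)
    (c : Finset (Fin n × Y) → ℝ) (hc : ∀ η, 0 ≤ c η) (e t : ℝ) (ht : 0 < t) :
    2 * ∫⁻ x, slF V δ r z i c e t x
      = ENNReal.ofReal (2 * G0 m)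
        * ∫⁻ v in Set.Icc t (t + e), ENNReal.ofReal (mkd V δ r z i c v) := by
  have hk := hK n m Y s ζ δ r z V hM hV i hi c hc ((Set.Icc t (t + e)).indicator
    fun _ => (1 : ℝ≥0∞)) (measurable_one.indicator measurableSet_Icc)
  have e1 : ∫⁻ v in Set.Ioi (0 : ℝ), (Set.Icc t (t + e)).indicator (fun _ => (1 : ℝ≥0∞)) v
      * ENNReal.ofReal (∑ η : Finset (Fin n × Y), W1 V δ r z η
            * (1 / √Real.pi * (hh V (tau δ r η) i) ^ (-(1 / 2) : ℝ)
              * Real.exp (-(v ^ 2 / hh V (tau δ r η) i))) * c η)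
      = ∫⁻ v in Set.Icc t (t + e), ENNReal.ofReal (mkd V δ r z i c v) := by
    have : ∀ v, (Set.Icc t (t + e)).indicator (fun _ => (1 : ℝ≥0∞)) v
        * ENNReal.ofReal (∑ η : Finset (Fin n × Y), W1 V δ r z η
            * (1 / √Real.pi * (hh V (tau δ r η) i) ^ (-(1 / 2) : ℝ)
              * Real.exp (-(v ^ 2 / hh V (tau δ r η) i))) * c η)
        = (Set.Icc t (t + e)).indicator (fun v => ENNReal.ofReal (mkd V δ r z i c v)) v := by
      intro v
      by_cases hv : v ∈ Set.Icc t (t + e)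
      · rw [Set.indicator_of_mem hv, Set.indicator_of_mem hv, one_mul]
        rfl
      · rw [Set.indicator_of_notMem hv, Set.indicator_of_notMem hv, zero_mul]
    simp_rw [this]
    rw [setLIntegral_indicator measurableSet_Icc]
    congr 2
    refine Set.inter_eq_left.2 fun v hv => ?_
    exact lt_of_lt_of_le ht hv.1
  rw [e1] at hk
  rw [← hk]
  have e2 : ∀ x : Fin m → ℝ, (Set.Icc t (t + e)).indicator (fun _ => (1 : ℝ≥0∞)) |V.mulVec x i|
      * ENNReal.ofReal (Zy δ r z c (V.mulVec x))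
      = slF V δ r z i c e t x + slF V δ r z i c e t (-x) := by
    intro x
    have n1 : V.mulVec (-x) = -(V.mulVec x) := Matrix.mulVec_neg x V
    have n2 : Zy δ r z c (V.mulVec (-x)) = Zy δ r z c (V.mulVec x) := by
      rw [n1]
      unfold Zy
      simp
    unfold slF
    rw [n2, n1, ← add_mul]
    congr 1
    rw [Pi.neg_apply]
    rcases le_or_gt 0 (V.mulVec x i) with hx | hx
    · rw [abs_of_nonneg hx]
      have : -(V.mulVec x i) ∉ Set.Icc t (t + e) := fun h => by linarith [h.1]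
      rw [Set.indicator_of_notMem this, add_zero]
    · rw [abs_of_neg hx]
      have : V.mulVec x i ∉ Set.Icc t (t + e) := fun h => by linarith [h.1]
      rw [Set.indicator_of_notMem this, zero_add]
  simp_rw [e2]
  rw [lintegral_add_left (slF_meas V i c e t), lintegral_neg_eq_self, two_mul]

theorem mdi_exp {u : ℝ} (hu : 0 ≤ u) : Real.exp (-u) ≤ 1 - u + u ^ 2 / 2 := by
  have h1 := Real.quadratic_le_exp_of_nonneg hu
  rw [Real.exp_neg]
  have h2 : 0 < Real.exp u := Real.exp_pos u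
  have h3 : 0 ≤ 1 - u + u ^ 2 / 2 := by nlinarith [sq_nonneg (u - 1)]
  rw [inv_le_iff_one_le_mul₀ h2]
  have h4 : 1 ≤ (1 - u + u ^ 2 / 2) * (1 + u + u ^ 2 / 2) := by
    have : (1 - u + u ^ 2 / 2) * (1 + u + u ^ 2 / 2) = 1 + u ^ 4 / 4 := by ring
    rw [this]
    have : 0 ≤ u ^ 4 := by positivity
    linarith
  exact h4.trans (mul_le_mul_of_nonneg_left h1 h3)

/-- The sum of the second differences. -/
theorem mdi_sd (hG : ST_GPO) (hM : MD s ζ δ r z) (hQ : ST_MQ)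
    (hU : ST_UPD) (hV : Function.Injective V.mulVec) (i : Fin n) (hi : V i ≠ 0)
    {S θ : ℝ} (hS : ∀ η : Finset (Fin n × Y), (hh V (tau δ r η) i)⁻¹ ≤ S) (hθ : 0 < θ)
    (hθ1 : θ < 1) :
    ∃ c1 : ℝ, 0 < c1 ∧ ∀ (x k : Fin m → ℝ) (e h : ℝ), 0 < h → h < e → e ^ 2 * S ≤ c1 →
      e - h ≤ V.mulVec k i →
      (1 + θ) / 2 * (e - h) ^ 2 * Zy δ r z (fun η : Finset (Fin n × Y) =>
          (hh V (tau δ r η) i)⁻¹) (V.mulVec x)
        ≤ Zy δ r z (fun _ : Finset (Fin n × Y) => 1) (V.mulVec x)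
          * (∑ j, (gg δ r z (V.mulVec (x + k) j) + gg δ r z (V.mulVec (x - k) j)
            - 2 * gg δ r z (V.mulVec x j))) := by
  obtain ⟨-, -, g1, -, -, g2, L, hL, g3⟩ := hG Y s ζ δ r z hM
  have hd := hM.d0
  -- the threshold
  obtain ⟨ρ, hρ, hρL⟩ : ∃ ρ : ℝ, 0 < ρ ∧ L * ρ ≤ (1 - θ) / 2 * δ := by
    refine ⟨(1 - θ) / 2 * δ / (L + 1), by
      have : 0 < 1 - θ := by linarith
      positivity, ?_⟩
    rw [mul_div_assoc', div_le_iff₀ (by positivity)]
    have : 0 ≤ (1 - θ) / 2 * δ := by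
      have : 0 < 1 - θ := by linarith
      positivity
    nlinarith
  refine ⟨δ * ρ ^ 2, by positivity, ?_⟩
  intro x k e h hh0 hhe heS hki
  have hV1 : ∀ j, V.mulVec (x + k) j = V.mulVec x j + V.mulVec k j := by
    intro j
    rw [Matrix.mulVec_add]; rfl
  have hV2 : ∀ j, V.mulVec (x - k) j = V.mulVec x j - V.mulVec k j := by
    intro j
    rw [Matrix.mulVec_sub]; rfl
  simp only [hV1, hV2]
  obtain ⟨hZ1, hQ2⟩ := hQ n m Y s ζ δ r z V hM hV i hi x
  have hZpos : 0 < Zy δ r z (fun _ : Finset (Fin n × Y) => 1) (V.mulVec x) := by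
    rw [hZ1]
    have : 0 < ∏ y, (1 + z y) := Finset.prod_pos fun y _ => by linarith [hM.z0 y]
    positivity
  set Z1 := Zy δ r z (fun _ : Finset (Fin n × Y) => 1) (V.mulVec x) with hZ1d
  set ZH := Zy δ r z (fun η : Finset (Fin n × Y) => (hh V (tau δ r η) i)⁻¹)
    (V.mulVec x) with hZHd
  have hZH0 : 0 ≤ ZH := by
    rw [hZHd]
    unfold Zy
    refine Finset.sum_nonneg fun η _ => ?_
    have h1 := mdi_zw hM η
    have h2 := mdi_hh V hU hM hV i hi η
    positivity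
  have hZHS : ZH ≤ Z1 * S := by
    rw [hZHd, hZ1d]
    unfold Zy
    rw [Finset.sum_mul]
    refine Finset.sum_le_sum fun η _ => ?_
    rw [mul_one]
    refine mul_le_mul_of_nonneg_left (hS η) ?_
    have h1 := mdi_zw hM η
    positivity
  have heh : (e - h) ^ 2 ≤ V.mulVec k i ^ 2 := pow_le_pow_left₀ (by linarith) hki 2
  have hθ2 : 0 < (1 + θ) / 2 := by linarith
  by_cases hcase : ∀ j, |V.mulVec k j| ≤ ρ
  · -- all increments are small
    have h1 : ∀ j, (1 + θ) / 2 * (Dg δ r z (V.mulVec x j) * V.mulVec k j ^ 2) ≤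
        gg δ r z (V.mulVec x j + V.mulVec k j) + gg δ r z (V.mulVec x j - V.mulVec k j)
          - 2 * gg δ r z (V.mulVec x j) := by
      intro j
      refine le_trans ?_ (g3 (V.mulVec x j) (V.mulVec k j))
      have h2 : L * |V.mulVec k j| ^ 3 ≤ (1 - θ) / 2 * (δ * V.mulVec k j ^ 2) := by
        have h3 : |V.mulVec k j| ^ 3 = |V.mulVec k j| * V.mulVec k j ^ 2 := by
          rw [pow_succ, sq_abs, mul_comm]
        rw [h3]
        have h4 : L * |V.mulVec k j| ≤ (1 - θ) / 2 * δ :=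
          (mul_le_mul_of_nonneg_left (hcase j) hL).trans hρL
        have h5 := mul_le_mul_of_nonneg_right h4 (sq_nonneg (V.mulVec k j))
        calc L * (|V.mulVec k j| * V.mulVec k j ^ 2)
            = L * |V.mulVec k j| * V.mulVec k j ^ 2 := by ring
          _ ≤ (1 - θ) / 2 * δ * V.mulVec k j ^ 2 := h5
          _ = _ := by ring
      have h6 : (1 - θ) / 2 * (δ * V.mulVec k j ^ 2)
          ≤ (1 - θ) / 2 * (Dg δ r z (V.mulVec x j) * V.mulVec k j ^ 2) := by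
        refine mul_le_mul_of_nonneg_left ?_ (by linarith)
        refine mul_le_mul_of_nonneg_right ?_ (sq_nonneg _)
        have := g1 (V.mulVec x j)
        linarith
      have h7 : Dg δ r z (V.mulVec x j) * V.mulVec k j ^ 2
          = (1 + θ) / 2 * (Dg δ r z (V.mulVec x j) * V.mulVec k j ^ 2)
            + (1 - θ) / 2 * (Dg δ r z (V.mulVec x j) * V.mulVec k j ^ 2) := by ring
      linarith
    have h8 : (1 + θ) / 2 * ∑ j, Dg δ r z (V.mulVec x j) * V.mulVec k j ^ 2 ≤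
        ∑ j, (gg δ r z (V.mulVec x j + V.mulVec k j) + gg δ r z (V.mulVec x j - V.mulVec k j)
          - 2 * gg δ r z (V.mulVec x j)) := by
      rw [Finset.mul_sum]
      exact Finset.sum_le_sum fun j _ => h1 j
    calc (1 + θ) / 2 * (e - h) ^ 2 * ZH ≤ (1 + θ) / 2 * V.mulVec k i ^ 2 * ZH := by
          refine mul_le_mul_of_nonneg_right ?_ hZH0
          exact mul_le_mul_of_nonneg_left heh hθ2.le
      _ = (1 + θ) / 2 * (V.mulVec k i ^ 2 * ZH) := by ring
      _ ≤ (1 + θ) / 2 * (Z1 * ∑ j, Dg δ r z (V.mulVec x j) * V.mulVec k j ^ 2) :=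
          mul_le_mul_of_nonneg_left (hQ2 k) hθ2.le
      _ = Z1 * ((1 + θ) / 2 * ∑ j, Dg δ r z (V.mulVec x j) * V.mulVec k j ^ 2) := by ring
      _ ≤ _ := mul_le_mul_of_nonneg_left h8 hZpos.le
  · -- one large increment
    push Not at hcase
    obtain ⟨j0, hj0⟩ := hcase
    have h1 : δ * ρ ^ 2 ≤
        ∑ j, (gg δ r z (V.mulVec x j + V.mulVec k j) + gg δ r z (V.mulVec x j - V.mulVec k j)
          - 2 * gg δ r z (V.mulVec x j)) := by
      have h2 : ∀ j ∈ Finset.univ, 0 ≤ gg δ r z (V.mulVec x j + V.mulVec k j)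
          + gg δ r z (V.mulVec x j - V.mulVec k j) - 2 * gg δ r z (V.mulVec x j) := by
        intro j _
        refine le_trans ?_ (g2 (V.mulVec x j) (V.mulVec k j))
        positivity
      refine le_trans ?_ (Finset.single_le_sum h2 (Finset.mem_univ j0))
      refine le_trans ?_ (g2 (V.mulVec x j0) (V.mulVec k j0))
      have h3 : ρ ^ 2 ≤ V.mulVec k j0 ^ 2 := by
        rw [← sq_abs (V.mulVec k j0)]
        exact pow_le_pow_left₀ hρ.le hj0.le 2
      rw [one_mul]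
      exact mul_le_mul_of_nonneg_left h3 hd.le
    have hS0 : 0 ≤ S := by
      have := mdi_hh V hU hM hV i hi ∅
      exact le_trans (inv_nonneg.2 this.le) (hS ∅)
    calc (1 + θ) / 2 * (e - h) ^ 2 * ZH ≤ 1 * (e - h) ^ 2 * ZH := by
          refine mul_le_mul_of_nonneg_right ?_ hZH0
          exact mul_le_mul_of_nonneg_right (by linarith) (sq_nonneg _)
      _ ≤ e ^ 2 * ZH := by
          refine mul_le_mul_of_nonneg_right ?_ hZH0
          rw [one_mul]
          exact pow_le_pow_left₀ (by linarith) (by linarith) 2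
      _ ≤ e ^ 2 * (Z1 * S) := mul_le_mul_of_nonneg_left hZHS (sq_nonneg _)
      _ = Z1 * (e ^ 2 * S) := by ring
      _ ≤ Z1 * (δ * ρ ^ 2) := mul_le_mul_of_nonneg_left heS hZpos.le
      _ ≤ _ := mul_le_mul_of_nonneg_left h1 hZpos.le

theorem Zy_lin (c d : Finset (Fin n × Y) → ℝ) (a : ℝ) (y : Fin n → ℝ) :
    Zy δ r z (fun η => c η - a * d η) y = Zy δ r z c y - a * Zy δ r z d y := by
  unfold Zy
  rw [Finset.mul_sum, ← Finset.sum_sub_distrib]
  refine Finset.sum_congr rfl fun η _ => ?_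
  ring

/-- The pointwise inequality of the Prekopa-Leindler step. -/
theorem mdi_pt (hG : ST_GPO) (hM : MD s ζ δ r z) (hQ : ST_MQ)
    (hU : ST_UPD) (hV : Function.Injective V.mulVec) (i : Fin n) (hi : V i ≠ 0)
    {S θ : ℝ} (hS : ∀ η : Finset (Fin n × Y), (hh V (tau δ r η) i)⁻¹ ≤ S) (hθ : 0 < θ)
    (hθ1 : θ < 1) :
    ∃ c1 : ℝ, 0 < c1 ∧ ∀ (x y : Fin m → ℝ) (e h : ℝ), 0 < h → h < e → e ^ 2 * S ≤ c1 →
      e - h ≤ V.mulVec ((1 / 2 : ℝ) • x - (1 / 2 : ℝ) • y) i →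
      Zy δ r z (fun _ : Finset (Fin n × Y) => 1) (V.mulVec x) ^ (1 / 2 : ℝ)
        * Zy δ r z (fun _ : Finset (Fin n × Y) => 1) (V.mulVec y) ^ (1 / 2 : ℝ)
        ≤ Zy δ r z (fun η : Finset (Fin n × Y) =>
          1 - θ / 2 * (e - h) ^ 2 * (hh V (tau δ r η) i)⁻¹)
            (V.mulVec ((1 / 2 : ℝ) • x + (1 / 2 : ℝ) • y)) := by
  obtain ⟨c1, hc1, H⟩ := mdi_sd V hG hM hQ hU hV i hi hS hθ hθ1
  have h1θ : 0 < 1 - θ := by linarith
  refine ⟨min c1 (1 - θ), lt_min hc1 h1θ, ?_⟩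
  intro x y e h hh0 hhe heS hki
  obtain ⟨w, hw⟩ : ∃ w, w = (1 / 2 : ℝ) • x + (1 / 2 : ℝ) • y := ⟨_, rfl⟩
  obtain ⟨k, hk⟩ : ∃ k, k = (1 / 2 : ℝ) • x - (1 / 2 : ℝ) • y := ⟨_, rfl⟩
  have ex : x = w + k := by
    rw [hw, hk]
    funext j
    simp only [Pi.add_apply, Pi.sub_apply, Pi.smul_apply, smul_eq_mul]
    ring
  have ey : y = w - k := by
    rw [hw, hk]
    funext j
    simp only [Pi.add_apply, Pi.sub_apply, Pi.smul_apply, smul_eq_mul]
    ring
  rw [← hk] at hki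
  have H1 := H w k e h hh0 hhe (heS.trans (min_le_left _ _)) hki
  rw [← ex, ← ey] at H1
  have hx := (hQ n m Y s ζ δ r z V hM hV i hi x).1
  have hy := (hQ n m Y s ζ δ r z V hM hV i hi y).1
  have hz := (hQ n m Y s ζ δ r z V hM hV i hi w).1
  have hKp : 0 < (∏ y, (1 + z y)) ^ n :=
    pow_pos (Finset.prod_pos fun y _ => by linarith [hM.z0 y]) n
  rw [← hw, Zy_lin]
  set Kp := (∏ y, (1 + z y)) ^ n with hKpd
  set SD := ∑ j, (gg δ r z (V.mulVec x j) + gg δ r z (V.mulVec y j)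
            - 2 * gg δ r z (V.mulVec w j)) with hSD
  set Z1 := Zy δ r z (fun _ : Finset (Fin n × Y) => 1) (V.mulVec w) with hZ1d
  set ZH := Zy δ r z (fun η : Finset (Fin n × Y) => (hh V (tau δ r η) i)⁻¹)
    (V.mulVec w) with hZHd
  have hZpos : 0 < Z1 := by
    rw [hz]
    positivity
  have hZH0 : 0 ≤ ZH := by
    rw [hZHd]
    unfold Zy
    refine Finset.sum_nonneg fun η _ => ?_
    have h1 := mdi_zw hM η
    have h2 := mdi_hh V hU hM hV i hi η
    positivity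
  have hZHS : ZH ≤ Z1 * S := by
    rw [hZHd, hZ1d]
    unfold Zy
    rw [Finset.sum_mul]
    refine Finset.sum_le_sum fun η _ => ?_
    rw [mul_one]
    refine mul_le_mul_of_nonneg_left (hS η) ?_
    have h1 := mdi_zw hM η
    positivity
  -- the left side
  have hl : Zy δ r z (fun _ : Finset (Fin n × Y) => 1) (V.mulVec x) ^ (1 / 2 : ℝ)
        * Zy δ r z (fun _ : Finset (Fin n × Y) => 1) (V.mulVec y) ^ (1 / 2 : ℝ)
        = Z1 * Real.exp (-(SD / 2)) := by
    rw [hx, hy, hz, Real.mul_rpow hKp.le (Real.exp_pos _).le,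
      Real.mul_rpow hKp.le (Real.exp_pos _).le, ← Real.exp_mul, ← Real.exp_mul]
    have e1 : Kp ^ (1 / 2 : ℝ) * Kp ^ (1 / 2 : ℝ) = Kp := by
      rw [← Real.rpow_add hKp]
      norm_num
    have e2 : SD = (∑ j, gg δ r z (V.mulVec x j)) + (∑ j, gg δ r z (V.mulVec y j))
        - 2 * ∑ j, gg δ r z (V.mulVec w j) := by
      rw [hSD, Finset.sum_sub_distrib, Finset.sum_add_distrib, Finset.mul_sum]
    calc Kp ^ (1 / 2 : ℝ) * Real.exp (-(∑ j, gg δ r z (V.mulVec x j)) * (1 / 2)) *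
          (Kp ^ (1 / 2 : ℝ) * Real.exp (-(∑ j, gg δ r z (V.mulVec y j)) * (1 / 2)))
        = (Kp ^ (1 / 2 : ℝ) * Kp ^ (1 / 2 : ℝ)) *
          (Real.exp (-(∑ j, gg δ r z (V.mulVec x j)) * (1 / 2)) *
            Real.exp (-(∑ j, gg δ r z (V.mulVec y j)) * (1 / 2))) := by ring
      _ = Kp * (Real.exp (-∑ j, gg δ r z (V.mulVec w j)) * Real.exp (-(SD / 2))) := by
          rw [e1, ← Real.exp_add, ← Real.exp_add, e2]
          congr 2
          ring
      _ = _ := by ring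
  rw [hl]
  -- the number b
  obtain ⟨b, hb⟩ : ∃ b, b = (e - h) ^ 2 * ZH / Z1 := ⟨_, rfl⟩
  have hbZ : Z1 * b = (e - h) ^ 2 * ZH := by
    rw [hb]; field_simp
  have hb0 : 0 ≤ b := by
    rw [hb]; positivity
  have hb1 : b ≤ 1 - θ := by
    rw [hb, div_le_iff₀ hZpos]
    have h3 : (e - h) ^ 2 ≤ e ^ 2 := pow_le_pow_left₀ (by linarith) (by linarith) 2
    calc (e - h) ^ 2 * ZH ≤ e ^ 2 * ZH := mul_le_mul_of_nonneg_right h3 hZH0
      _ ≤ e ^ 2 * (Z1 * S) := mul_le_mul_of_nonneg_left hZHS (sq_nonneg _)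
      _ = e ^ 2 * S * Z1 := by ring
      _ ≤ (1 - θ) * Z1 :=
        mul_le_mul_of_nonneg_right (heS.trans (min_le_right _ _)) hZpos.le
  have hbSD : (1 + θ) / 2 * b ≤ SD := by
    have h4 : Z1 * ((1 + θ) / 2 * b) ≤ Z1 * SD := by
      calc Z1 * ((1 + θ) / 2 * b) = (1 + θ) / 2 * (Z1 * b) := by ring
        _ = (1 + θ) / 2 * (e - h) ^ 2 * ZH := by rw [hbZ]; ring
        _ ≤ Z1 * SD := H1
    exact le_of_mul_le_mul_left h4 hZpos
  have hexp : Real.exp (-(SD / 2)) ≤ 1 - θ / 2 * b := by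
    have h5 : Real.exp (-(SD / 2)) ≤ Real.exp (-((1 + θ) / 4 * b)) :=
      Real.exp_le_exp.2 (by linarith)
    have hu : 0 ≤ (1 + θ) / 4 * b := by positivity
    have h6 := mdi_exp hu
    have h7 : 1 - (1 + θ) / 4 * b + ((1 + θ) / 4 * b) ^ 2 / 2 ≤ 1 - θ / 2 * b := by
      have h8 : ((1 + θ) / 4 * b) ^ 2 / 2 ≤ (1 - θ) / 4 * b := by
        have h9 : ((1 + θ) / 4) ^ 2 / 2 * b ≤ (1 - θ) / 4 := by
          have h10 : ((1 + θ) / 4) ^ 2 ≤ 1 / 4 := by nlinarith
          nlinarith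
        have h11 := mul_le_mul_of_nonneg_right h9 hb0
        calc ((1 + θ) / 4 * b) ^ 2 / 2 = ((1 + θ) / 4) ^ 2 / 2 * b * b := by ring
          _ ≤ (1 - θ) / 4 * b := h11
      linarith
    exact h5.trans (h6.trans h7)
  calc Z1 * Real.exp (-(SD / 2)) ≤ Z1 * (1 - θ / 2 * b) :=
        mul_le_mul_of_nonneg_left hexp hZpos.le
    _ = Z1 - θ / 2 * (Z1 * b) := by ring
    _ = Z1 - θ / 2 * (e - h) ^ 2 * ZH := by rw [hbZ]; ring

/-- The Prekopa-Leindler step. -/
theorem mdi_PL (hG : ST_GPO) (hM : MD s ζ δ r z) (hQ : ST_MQ)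
    (hU : ST_UPD) (hV : Function.Injective V.mulVec) (i : Fin n) (hi : V i ≠ 0)
    {S θ : ℝ} (hS : ∀ η : Finset (Fin n × Y), (hh V (tau δ r η) i)⁻¹ ≤ S) (hθ : 0 < θ)
    (hθ1 : θ < 1) :
    ∃ c1 : ℝ, 0 < c1 ∧ ∀ t e h : ℝ, 0 < h → h < e → e ^ 2 * S ≤ c1 →
      (∫⁻ x, slF V δ r z i (fun _ => 1) h (t + e) x) ^ (1 / 2 : ℝ)
        * (∫⁻ x, slF V δ r z i (fun _ => 1) h (t - e) x) ^ (1 / 2 : ℝ)
        ≤ ∫⁻ x, slF V δ r z i (fun η => 1 - θ / 2 * (e - h) ^ 2 * (hh V (tau δ r η) i)⁻¹)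
          h t x := by
  obtain ⟨c1, hc1, H⟩ := mdi_pt V hG hM hQ hU hV i hi hS hθ hθ1
  refine ⟨c1, hc1, ?_⟩
  intro t e h hh0 hhe heS
  refine Pool.Agent.Helper67.LB.pl_pi m (slF_meas V i _ h _) (slF_meas V i _ h _)
    (slF_meas V i _ h _) (by norm_num) (by norm_num) (by norm_num) ?_
  intro x y
  have hpos : ∀ x : Fin m → ℝ,
      0 < Zy δ r z (fun _ : Finset (Fin n × Y) => 1) (V.mulVec x) := by
    intro x
    rw [(hQ n m Y s ζ δ r z V hM hV i hi x).1]
    have : 0 < ∏ y, (1 + z y) := Finset.prod_pos fun y _ => by linarith [hM.z0 y]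
    positivity
  by_cases hx : V.mulVec x i ∈ Set.Icc (t + e) (t + e + h)
  · by_cases hy : V.mulVec y i ∈ Set.Icc (t - e) (t - e + h)
    · have hx1 := hx.1
      have hx2 := hx.2
      have hy1 := hy.1
      have hy2 := hy.2
      have hxy : V.mulVec ((1 / 2 : ℝ) • x + (1 / 2 : ℝ) • y) i ∈ Set.Icc t (t + h) := by
        rw [Matrix.mulVec_add, Matrix.mulVec_smul, Matrix.mulVec_smul]
        simp only [Pi.add_apply, Pi.smul_apply, smul_eq_mul]
        constructor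
        · linarith
        · linarith
      have hk : e - h ≤ V.mulVec ((1 / 2 : ℝ) • x - (1 / 2 : ℝ) • y) i := by
        rw [Matrix.mulVec_sub, Matrix.mulVec_smul, Matrix.mulVec_smul]
        simp only [Pi.sub_apply, Pi.smul_apply, smul_eq_mul]
        linarith
      have h1 := H x y e h hh0 hhe heS hk
      unfold slF
      rw [Set.indicator_of_mem hx, Set.indicator_of_mem hy, Set.indicator_of_mem hxy, one_mul,
        one_mul, one_mul, ENNReal.ofReal_rpow_of_pos (hpos x),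
        ENNReal.ofReal_rpow_of_pos (hpos y),
        ← ENNReal.ofReal_mul (Real.rpow_nonneg (hpos x).le _)]
      exact ENNReal.ofReal_le_ofReal h1
    · have : slF V δ r z i (fun _ => 1) h (t - e) y = 0 := by
        unfold slF
        rw [Set.indicator_of_notMem hy, zero_mul]
      rw [this, ENNReal.zero_rpow_of_pos (by norm_num), mul_zero]
      exact zero_le
  · have : slF V δ r z i (fun _ => 1) h (t + e) x = 0 := by
      unfold slF
      rw [Set.indicator_of_notMem hx, zero_mul]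
    rw [this, ENNReal.zero_rpow_of_pos (by norm_num), zero_mul]
    exact zero_le

theorem mkd_pos (hU : ST_UPD) (hM : MD s ζ δ r z) (hV : Function.Injective V.mulVec)
    (i : Fin n) (hi : V i ≠ 0) (t : ℝ) : 0 < mkd V δ r z i (fun _ => 1) t := by
  unfold mkd
  refine Finset.sum_pos (fun η _ => ?_) ⟨∅, Finset.mem_univ _⟩
  have h1 := mdi_W1 V hU hM hV i η
  have h2 := Real.rpow_pos_of_pos (mdi_hh V hU hM hV i hi η) (-(1 / 2) : ℝ)
  have h3 : (0 : ℝ) < √Real.pi := Real.sqrt_pos.2 Real.pi_pos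
  positivity

theorem mkd_nonneg (hU : ST_UPD) (hM : MD s ζ δ r z) (hV : Function.Injective V.mulVec)
    (i : Fin n) (hi : V i ≠ 0) (c : Finset (Fin n × Y) → ℝ) (hc : ∀ η, 0 ≤ c η) (t : ℝ) :
    0 ≤ mkd V δ r z i c t := by
  unfold mkd
  refine Finset.sum_nonneg (fun η _ => ?_)
  have h1 := mdi_W1 V hU hM hV i η
  have h2 := Real.rpow_pos_of_pos (mdi_hh V hU hM hV i hi η) (-(1 / 2) : ℝ)
  have h3 : (0 : ℝ) < √Real.pi := Real.sqrt_pos.2 Real.pi_pos
  have h4 := hc η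
  positivity

/-- The integrated inequality. -/
theorem mdi_int (hK : ST_MK) (hG : ST_GPO) (hM : MD s ζ δ r z) (hQ : ST_MQ)
    (hU : ST_UPD) (hV : Function.Injective V.mulVec) (i : Fin n) (hi : V i ≠ 0)
    {S θ : ℝ} (hS : ∀ η : Finset (Fin n × Y), (hh V (tau δ r η) i)⁻¹ ≤ S) (hθ : 0 < θ)
    (hθ1 : θ < 1) :
    ∃ c1 : ℝ, 0 < c1 ∧ ∀ t e h : ℝ, 0 < h → h < e → e < t → e ^ 2 * S ≤ c1 →
      ((∫ v in (t + e)..(t + e) + h, mkd V δ r z i (fun _ => 1) v) / h) ^ (1 / 2 : ℝ)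
        * ((∫ v in (t - e)..(t - e) + h, mkd V δ r z i (fun _ => 1) v) / h) ^ (1 / 2 : ℝ)
        ≤ (∫ v in t..t + h, mkd V δ r z i (fun _ => 1) v) / h
          - θ / 2 * (e - h) ^ 2 *
            ((∫ v in t..t + h, mkd V δ r z i (fun η => (hh V (tau δ r η) i)⁻¹) v) / h) := by
  obtain ⟨c1, hc1, H⟩ := mdi_PL V hG hM hQ hU hV i hi hS hθ hθ1
  refine ⟨min c1 1, lt_min hc1 one_pos, ?_⟩
  intro t e h hh0 hhe het heS
  have hpl := H t e h hh0 hhe (heS.trans (min_le_left _ _))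
  obtain ⟨ch, hch⟩ : ∃ ch : Finset (Fin n × Y) → ℝ,
      ch = fun η => 1 - θ / 2 * (e - h) ^ 2 * (hh V (tau δ r η) i)⁻¹ := ⟨_, rfl⟩
  rw [← hch] at hpl
  have hch0 : ∀ η, 0 ≤ ch η := by
    intro η
    rw [hch]
    have h1 := hS η
    have h2 : 0 < (hh V (tau δ r η) i)⁻¹ := inv_pos.2 (mdi_hh V hU hM hV i hi η)
    have h3 : (e - h) ^ 2 ≤ e ^ 2 := pow_le_pow_left₀ (by linarith) (by linarith) 2
    have h4 : (e - h) ^ 2 * (hh V (tau δ r η) i)⁻¹ ≤ 1 := by
      calc (e - h) ^ 2 * (hh V (tau δ r η) i)⁻¹ ≤ e ^ 2 * S :=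
            mul_le_mul h3 h1 h2.le (sq_nonneg _)
        _ ≤ 1 := heS.trans (min_le_right _ _)
    have h5 : 0 ≤ (e - h) ^ 2 * (hh V (tau δ r η) i)⁻¹ := by positivity
    beta_reduce
    nlinarith
  have hJ : ∀ (c : Finset (Fin n × Y) → ℝ), (∀ η, 0 ≤ c η) → ∀ w : ℝ,
      ∫⁻ v in Set.Icc w (w + h), ENNReal.ofReal (mkd V δ r z i c v)
      = ENNReal.ofReal (∫ v in w..w + h, mkd V δ r z i c v) := by
    intro c hc w
    rw [intervalIntegral.integral_of_le (by linarith), ← integral_Icc_eq_integral_Ioc,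
      ofReal_integral_eq_lintegral_ofReal]
    · exact (mkd_cont V i c).continuousOn.integrableOn_Icc
    · exact Filter.Eventually.of_forall fun v => mkd_nonneg V hU hM hV i hi c hc v
  have hI : ∀ w : ℝ, 0 < ∫ v in w..w + h, mkd V δ r z i (fun _ => 1) v := by
    intro w
    refine intervalIntegral.intervalIntegral_pos_of_pos
      ((mkd_cont V i _).intervalIntegrable _ _)
      (fun v => mkd_pos V hU hM hV i hi v) (by linarith)
  obtain ⟨C, hC⟩ : ∃ C, C = ENNReal.ofReal (2 * G0 m) := ⟨_, rfl⟩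
  have hC0 : C ≠ 0 := by
    intro h0
    have hk := hK n m Y s ζ δ r z V hM hV i hi (fun _ => 1) (fun _ => zero_le_one)
      (fun _ => (1 : ℝ≥0∞)) measurable_const
    rw [← hC, h0, zero_mul] at hk
    simp only [one_mul] at hk
    have hm : Measurable fun x : Fin m → ℝ =>
        ENNReal.ofReal (Zy δ r z (fun _ : Finset (Fin n × Y) => 1) (V.mulVec x)) :=
      ENNReal.measurable_ofReal.comp (Zy_cont V (fun _ => 1)).measurable
    rw [lintegral_eq_zero_iff hm] at hk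
    have h2 : ∀ᵐ x : Fin m → ℝ, False := by
      filter_upwards [hk] with x hx
      have h3 : 0 < Zy δ r z (fun _ : Finset (Fin n × Y) => 1) (V.mulVec x) := by
        rw [(hQ n m Y s ζ δ r z V hM hV i hi x).1]
        have : 0 < ∏ y, (1 + z y) := Finset.prod_pos fun y _ => by linarith [hM.z0 y]
        positivity
      have := ENNReal.ofReal_pos.2 h3
      rw [hx] at this
      exact absurd this (by simp)
    rw [Filter.eventually_false_iff_eq_bot, ae_eq_bot] at h2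
    have h3 := congrArg (fun μ : Measure (Fin m → ℝ) => μ Set.univ) h2
    simp only [Measure.coe_zero, Pi.zero_apply] at h3
    exact absurd h3 (isOpen_univ.measure_pos volume Set.univ_nonempty).ne'
  have hCt : C ≠ ⊤ := by rw [hC]; exact ENNReal.ofReal_ne_top
  have f1 : ∀ (c : Finset (Fin n × Y) → ℝ), (∀ η, 0 ≤ c η) → ∀ w, 0 < w →
      ∫⁻ x, slF V δ r z i c h w x
      = C / 2 * ENNReal.ofReal (∫ v in w..w + h, mkd V δ r z i c v) := by
    intro c hc w hw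
    have hs := slF_half V hK hM hV i hi c hc h w hw
    rw [← hC, hJ c hc] at hs
    have h2 : (∫⁻ x, slF V δ r z i c h w x) = (2 * ∫⁻ x, slF V δ r z i c h w x) / 2 := by
      rw [mul_comm, mul_div_assoc, ENNReal.div_self (by simp) (by simp), mul_one]
    rw [h2, hs, ENNReal.mul_div_right_comm]
  rw [f1 _ (fun _ => zero_le_one) _ (by linarith), f1 _ (fun _ => zero_le_one) _ (by linarith),
    f1 ch hch0 t (by linarith)] at hpl
  have hc2 : C / 2 ≠ 0 := by
    rw [Ne, ENNReal.div_eq_zero_iff]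
    push Not
    exact ⟨hC0, by simp⟩
  have hc3 : C / 2 ≠ ⊤ := ENNReal.div_ne_top hCt (by simp)
  rw [ENNReal.mul_rpow_of_nonneg _ _ (by norm_num), ENNReal.mul_rpow_of_nonneg _ _ (by norm_num)]
    at hpl
  have g1 : ∀ A B : ℝ≥0∞, (C / 2) ^ (1 / 2 : ℝ) * A * ((C / 2) ^ (1 / 2 : ℝ) * B)
      = C / 2 * (A * B) := by
    intro A B
    have : C / 2 = (C / 2) ^ (1 / 2 : ℝ) * (C / 2) ^ (1 / 2 : ℝ) := by
      rw [← ENNReal.rpow_add _ _ hc2 hc3]
      norm_num
    conv_rhs => rw [this]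
    ring
  rw [g1, ENNReal.mul_le_mul_iff_right hc2 hc3, ENNReal.ofReal_rpow_of_pos (hI _),
    ENNReal.ofReal_rpow_of_pos (hI _), ← ENNReal.ofReal_mul (Real.rpow_nonneg (hI _).le _)]
    at hpl
  have hch1 : 0 ≤ ∫ v in t..t + h, mkd V δ r z i ch v :=
    intervalIntegral.integral_nonneg (by linarith) fun v _ => mkd_nonneg V hU hM hV i hi ch hch0 v
  rw [ENNReal.ofReal_le_ofReal_iff hch1] at hpl
  have e1 : ∫ v in t..t + h, mkd V δ r z i ch v
      = (∫ v in t..t + h, mkd V δ r z i (fun _ => 1) v) - θ / 2 * (e - h) ^ 2 *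
        ∫ v in t..t + h, mkd V δ r z i (fun η => (hh V (tau δ r η) i)⁻¹) v := by
    rw [← intervalIntegral.integral_const_mul, ← intervalIntegral.integral_sub
      ((mkd_cont V i _).intervalIntegrable _ _)
      (((mkd_cont V i _).const_mul _).intervalIntegrable _ _)]
    refine intervalIntegral.integral_congr fun v _ => ?_
    rw [hch]
    exact mkd_lin V i _ _ _ v
  rw [e1] at hpl
  rw [Real.div_rpow (hI _).le hh0.le, Real.div_rpow (hI _).le hh0.le, div_mul_div_comm,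
    ← Real.rpow_add hh0]
  have e2 : h ^ ((1 / 2 : ℝ) + 1 / 2) = h := by norm_num
  rw [e2]
  have e3 : (∫ v in t..t + h, mkd V δ r z i (fun _ => 1) v) / h
          - θ / 2 * (e - h) ^ 2 *
            ((∫ v in t..t + h, mkd V δ r z i (fun η => (hh V (tau δ r η) i)⁻¹) v) / h)
      = ((∫ v in t..t + h, mkd V δ r z i (fun _ => 1) v) - θ / 2 * (e - h) ^ 2 *
        ∫ v in t..t + h, mkd V δ r z i (fun η => (hh V (tau δ r η) i)⁻¹) v) / h := by ring
  rw [e3]
  exact div_le_div_of_nonneg_right hpl hh0.le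

theorem mdi_lim (f : ℝ → ℝ) (hf : Continuous f) (w : ℝ) :
    Tendsto (fun e : ℝ => (∫ v in w..w + e, f v) / e) (𝓝[>] 0) (𝓝 (f w)) := by
  have h1 : HasDerivAt (fun x => ∫ v in w..x, f v) (f w) w :=
    intervalIntegral.integral_hasDerivAt_right (hf.intervalIntegrable _ _)
      (hf.stronglyMeasurableAtFilter _ _) hf.continuousAt
  have h2 := h1.tendsto_slope_zero_right
  refine h2.congr' ?_
  filter_upwards with e
  rw [intervalIntegral.integral_same, sub_zero, smul_eq_mul]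
  ring

theorem st_MDI (hU : ST_UPD) (hK : ST_MK) (hQ : ST_MQ) (hG : ST_GPO) : ST_MDI := by
  intro n m Y _ _ s ζ δ r z V hM hV i hi t θ ht hθ hθ1
  obtain ⟨S, hSd⟩ : ∃ S, S = ∑ η : Finset (Fin n × Y), (hh V (tau δ r η) i)⁻¹ := ⟨_, rfl⟩
  have hS : ∀ η : Finset (Fin n × Y), (hh V (tau δ r η) i)⁻¹ ≤ S := by
    intro η
    rw [hSd]
    exact Finset.single_le_sum (f := fun η => (hh V (tau δ r η) i)⁻¹)
      (fun η _ => (inv_pos.2 (mdi_hh V hU hM hV i hi η)).le) (Finset.mem_univ η)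
  have hS0 : 0 ≤ S := le_trans (inv_pos.2 (mdi_hh V hU hM hV i hi ∅)).le (hS ∅)
  obtain ⟨c1, hc1, H⟩ := mdi_int V hK hG hM hQ hU hV i hi hS hθ hθ1
  refine ⟨min t (min 1 (c1 / (S + 1))), by positivity, ?_⟩
  intro e he hee
  have he1 : e < t := lt_of_lt_of_le hee (min_le_left _ _)
  have he2 : e < 1 := lt_of_lt_of_le hee ((min_le_right _ _).trans (min_le_left _ _))
  have he3 : e < c1 / (S + 1) := lt_of_lt_of_le hee ((min_le_right _ _).trans (min_le_right _ _))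
  have heS : e ^ 2 * S ≤ c1 := by
    rw [lt_div_iff₀ (by positivity)] at he3
    have h1 : e ^ 2 ≤ e := by nlinarith
    have h2 : e ^ 2 * S ≤ e * S := mul_le_mul_of_nonneg_right h1 hS0
    nlinarith
  -- pass to the limit
  have l1 := mdi_lim _ (mkd_cont V (δ := δ) (r := r) (z := z) i (fun _ => 1)) (t + e)
  have l2 := mdi_lim _ (mkd_cont V (δ := δ) (r := r) (z := z) i (fun _ => 1)) (t - e)
  have l3 := mdi_lim _ (mkd_cont V (δ := δ) (r := r) (z := z) i (fun _ => 1)) t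
  have l4 := mdi_lim _ (mkd_cont V (δ := δ) (r := r) (z := z) i
    (fun η => (hh V (tau δ r η) i)⁻¹)) t
  have l5 : Tendsto (fun h : ℝ => θ / 2 * (e - h) ^ 2) (𝓝[>] 0) (𝓝 (θ / 2 * (e - 0) ^ 2)) := by
    refine Tendsto.mono_left ?_ nhdsWithin_le_nhds
    refine Continuous.tendsto ?_ 0
    fun_prop
  have l6 := (l1.rpow_const (Or.inr (by norm_num : (0 : ℝ) ≤ 1 / 2))).mul
    (l2.rpow_const (Or.inr (by norm_num : (0 : ℝ) ≤ 1 / 2)))
  have l7 := l3.sub (l5.mul l4)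
  have hlim := le_of_tendsto_of_tendsto l6 l7 (by
    filter_upwards [self_mem_nhdsWithin, mem_nhdsWithin_of_mem_nhds (Iio_mem_nhds he)] with h h1 h2
    exact H t e h h1 h2 he1 heS)
  rw [mkd_fd V hU hM hV, mkd_fd V hU hM hV, mkd_fd V hU hM hV, mkd_p3 V hU hM hV i hi t ht,
    sub_zero] at hlim
  have hMS := mdi_MS V hU hM hV i
  have hfd : ∀ t, 0 < fd V δ r z i t := by
    intro t
    have h1 := mkd_pos V hU hM hV i hi t
    rw [mkd_fd V hU hM hV] at h1
    exact (mul_pos_iff_of_pos_left hMS).1 h1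
  have e1 : (MS V δ r z * fd V δ r z i (t + e)) ^ (1 / 2 : ℝ)
      * (MS V δ r z * fd V δ r z i (t - e)) ^ (1 / 2 : ℝ)
      = MS V δ r z * √(fd V δ r z i (t + e) * fd V δ r z i (t - e)) := by
    rw [Real.mul_rpow hMS.le (hfd _).le, Real.mul_rpow hMS.le (hfd _).le,
      Real.sqrt_eq_rpow, Real.mul_rpow (hfd _).le (hfd _).le]
    have e2 : MS V δ r z ^ (1 / 2 : ℝ) * MS V δ r z ^ (1 / 2 : ℝ) = MS V δ r z := by
      rw [← Real.rpow_add hMS]
      norm_num
    calc MS V δ r z ^ (1 / 2 : ℝ) * fd V δ r z i (t + e) ^ (1 / 2 : ℝ)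
          * (MS V δ r z ^ (1 / 2 : ℝ) * fd V δ r z i (t - e) ^ (1 / 2 : ℝ))
        = (MS V δ r z ^ (1 / 2 : ℝ) * MS V δ r z ^ (1 / 2 : ℝ))
          * (fd V δ r z i (t + e) ^ (1 / 2 : ℝ) * fd V δ r z i (t - e) ^ (1 / 2 : ℝ)) := by ring
      _ = _ := by rw [e2]
  rw [e1] at hlim
  have e3 : MS V δ r z * fd V δ r z i t
      - θ / 2 * e ^ 2 * (MS V δ r z * (p3 V δ r z i t / (4 * t ^ 2)))
      = MS V δ r z * (fd V δ r z i t - θ / 2 * e ^ 2 * (p3 V δ r z i t / (4 * t ^ 2))) := by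
    ring
  rw [e3] at hlim
  exact le_of_mul_le_mul_left hlim hMS

end MDIaux

end Pool.Agent.Helper75.GR
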